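import Mathlib

/-!
# Fourier coefficients of measures on the unit circle (MP_70814c_an)
-/

namespace Pool.Agent.Helper66.Rig

open MeasureTheory

/-- The `n`-th Fourier coefficient `∫ z ^ n dσ(z)`. -/
noncomputable def fc (σ : Measure ℂ) (n : ℕ) : ℂ := ∫ z, z ^ n ∂σ

/-- `σ` is a continuous Borel probability measure on the unit circle: a Borel probability measure
on `ℂ` which is concentrated on the unit circle and has no atoms. -/
def ContProb (σ : Measure ℂ) : Prop :=
  IsProbabilityMeasure σ ∧ (∀ᵐ z ∂σ, ‖z‖ = 1) ∧ ∀ z : ℂ, σ {z} = 0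

/-- The number of elements of `S` below `n`. -/
noncomputable def cnt (S : Set ℕ) (n : ℕ) : ℕ := (S ∩ Set.Iio n).ncard

end Pool.Agent.Helper66.Rig
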