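import Pool.Agent.Helper66.Rig.Obs

namespace Pool.Agent.Helper66.Rig

open MeasureTheory Filter Topology

theorem one_sub_cos_ge (t : ℝ) : 8 * (t - round t) ^ 2 ≤ 1 - Real.cos (2 * Real.pi * t) := by
  have h1 : Real.cos (2 * Real.pi * t) = Real.cos (2 * Real.pi * (t - round t)) := by
    have : 2 * Real.pi * t = 2 * Real.pi * (t - round t) + (round t : ℤ) * (2 * Real.pi) := by ring
    rw [this, Real.cos_add_int_mul_two_pi]
  have h2 := abs_sub_round t
  have hpi := Real.pi_pos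
  have h3 : |2 * Real.pi * (t - round t)| ≤ Real.pi := by
    rw [abs_mul, abs_of_pos (by positivity : (0 : ℝ) < 2 * Real.pi)]
    nlinarith
  have h4 := Real.cos_le_one_sub_mul_cos_sq h3
  rw [h1]
  have h5 : 2 / Real.pi ^ 2 * (2 * Real.pi * (t - round t)) ^ 2 = 8 * (t - round t) ^ 2 := by
    field_simp
    ring
  linarith

/-- growth: `4 * 6 ^ N ≤ 2 ^ ⌊C N⌋` eventually, and `N < ⌊C N⌋`. -/
theorem growth {C : ℝ} (hC : Real.log 6 / Real.log 2 < C) :
    ∀ᶠ N : ℕ in atTop, (4 : ℝ) * 6 ^ N ≤ 2 ^ ⌊C * N⌋₊ ∧ N < ⌊C * N⌋₊ := by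
  have l2 : 0 < Real.log 2 := Real.log_pos (by norm_num)
  have hC' : Real.log 6 < C * Real.log 2 := (div_lt_iff₀ l2).1 hC
  have hev : ∀ᶠ N : ℕ in atTop,
      3 * Real.log 2 ≤ (C * Real.log 2 - Real.log 6) * (N : ℝ) := by
    have h : Tendsto (fun N : ℕ => (C * Real.log 2 - Real.log 6) * (N : ℝ)) atTop atTop :=
      Tendsto.const_mul_atTop (by linarith) tendsto_natCast_atTop_atTop
    exact h.eventually_ge_atTop _
  filter_upwards [hev, eventually_ge_atTop 1] with N hN hN1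
  have hCpos : 0 < C := lt_trans (div_pos (Real.log_pos (by norm_num)) l2) hC
  have hfl : C * N - 1 < (⌊C * N⌋₊ : ℝ) := by
    have := Nat.lt_floor_add_one (C * (N : ℝ))
    linarith
  have key : (4 : ℝ) * 6 ^ N ≤ 2 ^ ⌊C * N⌋₊ := by
    have h1 : Real.log (4 * 6 ^ N) ≤ Real.log (2 ^ ⌊C * N⌋₊) := by
      rw [Real.log_mul (by norm_num) (by positivity), Real.log_pow, Real.log_pow]
      have h4 : Real.log 4 = 2 * Real.log 2 := by
        rw [show (4 : ℝ) = 2 ^ 2 by norm_num, Real.log_pow]; norm_num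
      rw [h4]
      nlinarith
    exact (Real.log_le_log_iff (by positivity) (by positivity)).1 h1
  refine ⟨key, ?_⟩
  have h2 : (2 : ℝ) ^ N < 2 ^ ⌊C * N⌋₊ := by
    calc (2 : ℝ) ^ N ≤ 6 ^ N := by gcongr; norm_num
      _ < 4 * 6 ^ N := by
        have : (0 : ℝ) < 6 ^ N := by positivity
        linarith
      _ ≤ _ := key
  exact (pow_lt_pow_iff_right₀ (by norm_num)).1 h2

/-- pointwise obstruction. -/
theorem pointwise {C : ℝ} (hC : Real.log 6 / Real.log 2 < C) (z : ℂ) (hz : ‖z‖ = 1) (hz1 : z ≠ 1) :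
    ∀ᶠ N : ℕ in atTop, ∃ k ∈ Finset.Icc N ⌊C * N⌋₊,
      (8 / 169 : ℝ) ≤ 1 - (z ^ (2 ^ k + 3 ^ k)).re := by
  have hpi := Real.pi_pos
  set x : ℝ := Complex.arg z / (2 * Real.pi) with hx
  have hzx : z = Complex.exp (2 * Real.pi * x * Complex.I) := by
    have h1 := Complex.norm_mul_exp_arg_mul_I z
    rw [hz] at h1
    have h2 : (2 * Real.pi * x : ℂ) = (Complex.arg z : ℂ) := by
      rw [hx]
      push_cast
      field_simp
    rw [h2]
    simpa using h1.symm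
  have hpow : ∀ n : ℕ, (z ^ n).re = Real.cos (2 * Real.pi * (n * x)) := by
    intro n
    rw [hzx, ← Complex.exp_nat_mul]
    have : (n : ℂ) * (2 * Real.pi * x * Complex.I) =
        ((2 * Real.pi * (n * x) : ℝ) : ℂ) * Complex.I := by
      push_cast; ring
    rw [this, Complex.exp_ofReal_mul_I_re]
  have hxint : ∀ e : ℤ, x ≠ e := by
    intro e he
    apply hz1
    rw [hzx, he]
    have : (2 * Real.pi * ((e : ℝ) : ℂ) * Complex.I) = e * (2 * Real.pi * Complex.I) := by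
      push_cast; ring
    rw [this, Complex.exp_int_mul_two_pi_mul_I]
  set d : ℝ := |x - round x| with hd
  have hdpos : 0 < d := abs_pos.2 (sub_ne_zero.2 (hxint _))
  have hsmall : ∀ᶠ N : ℕ in atTop, (1 / 2 : ℝ) ^ N < d := by
    have := tendsto_pow_atTop_nhds_zero_of_lt_one (r := (1 / 2 : ℝ)) (by norm_num) (by norm_num)
    exact this.eventually_lt_const hdpos
  filter_upwards [growth hC, hsmall] with N hN hNs
  by_contra hcon
  push Not at hcon
  have hr : ∀ k, N ≤ k → k ≤ ⌊C * N⌋₊ →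
      |((2 : ℝ) ^ k + 3 ^ k) * x - round (((2 : ℝ) ^ k + 3 ^ k) * x)| < 1 / 13 := by
    intro k h1 h2
    have h3 := hcon k (Finset.mem_Icc.2 ⟨h1, h2⟩)
    rw [hpow] at h3
    have h4 := one_sub_cos_ge ((((2 ^ k + 3 ^ k : ℕ) : ℝ)) * x)
    have h5 : (((2 ^ k + 3 ^ k : ℕ) : ℝ)) = (2 : ℝ) ^ k + 3 ^ k := by push_cast; ring
    rw [h5] at h3 h4
    have h6 : (((2 : ℝ) ^ k + 3 ^ k) * x - round (((2 : ℝ) ^ k + 3 ^ k) * x)) ^ 2
        < (1 / 13) ^ 2 := by
      have : (1 / 13 : ℝ) ^ 2 = 8 / 169 / 8 := by norm_num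
      rw [this]
      linarith
    exact abs_lt_of_sq_lt_sq h6 (by norm_num)
  obtain ⟨e, he⟩ := Rig.key x N ⌊C * N⌋₊ hN.2 hN.1
    (fun k => round (((2 : ℝ) ^ k + 3 ^ k) * x)) hr
  have h1 : d ≤ |x - e| := round_le x e
  have h2 : (1 / 2 : ℝ) ^ N = 1 / 2 ^ N := by rw [div_pow, one_pow]
  rw [h2] at hNs
  linarith

end Pool.Agent.Helper66.Rig
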