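import Pool.Agent.Helper66.Rig.Win3

/-!
Alternating construction: points that are alternately close to dyadic and to triadic rationals.
-/

namespace Pool.Agent.Helper66.Rig

open MeasureTheory Filter Topology

/-- One stage of the alternating construction. -/
theorem stageA (A B A' : ℕ) (h4 : (4 : ℝ) * 2 ^ A ≤ 3 ^ B) (hB : (3 : ℝ) ^ B ≤ 2 ^ A') (a : ℝ) :
    ∃ a0 a1 : ℝ, a ≤ a0 ∧ a0 + 3 / 2 ^ A' < a1 ∧ a1 + 3 / 2 ^ A' ≤ a + 3 / 2 ^ A ∧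
      (∀ x, a0 ≤ x → x ≤ a0 + 3 / 2 ^ A' →
        ∃ b c : ℤ, |x - b / 2 ^ A| ≤ 4 / 3 ^ B ∧ |x - c / 3 ^ B| ≤ 3 / 2 ^ A') ∧
      (∀ x, a1 ≤ x → x ≤ a1 + 3 / 2 ^ A' →
        ∃ b c : ℤ, |x - b / 2 ^ A| ≤ 4 / 3 ^ B ∧ |x - c / 3 ^ B| ≤ 3 / 2 ^ A') := by
  have p2 : (0 : ℝ) < 2 ^ A := by positivity
  have p3 : (0 : ℝ) < 3 ^ B := by positivity
  have hℓ : (3 : ℝ) / 2 ^ A' ≤ 3 / 3 ^ B := by gcongr
  have h43 : (4 : ℝ) / 3 ^ B ≤ 1 / 2 ^ A := by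
    rw [div_le_div_iff₀ p3 p2]; linarith
  have main : ∀ b : ℤ, ∃ c : ℤ, (b : ℝ) / 2 ^ A ≤ c / 3 ^ B ∧
      (c : ℝ) / 3 ^ B < b / 2 ^ A + 1 / 3 ^ B ∧
      (∀ x, (c : ℝ) / 3 ^ B ≤ x → x ≤ c / 3 ^ B + 3 / 2 ^ A' →
        ∃ b c : ℤ, |x - b / 2 ^ A| ≤ 4 / 3 ^ B ∧ |x - c / 3 ^ B| ≤ 3 / 2 ^ A') := by
    intro b
    have c1 := Int.le_ceil ((3 : ℝ) ^ B * b / 2 ^ A)
    have c2 := Int.ceil_lt_add_one ((3 : ℝ) ^ B * b / 2 ^ A)
    set c := ⌈(3 : ℝ) ^ B * b / 2 ^ A⌉ with hc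
    have d1 : (b : ℝ) / 2 ^ A ≤ c / 3 ^ B := by
      rw [le_div_iff₀ p3]
      calc (b : ℝ) / 2 ^ A * 3 ^ B = 3 ^ B * b / 2 ^ A := by ring
        _ ≤ c := c1
    have d2 : (c : ℝ) / 3 ^ B < b / 2 ^ A + 1 / 3 ^ B := by
      rw [div_lt_iff₀ p3, add_mul, one_div, inv_mul_cancel₀ p3.ne']
      calc (c : ℝ) < 3 ^ B * b / 2 ^ A + 1 := c2
        _ = b / 2 ^ A * 3 ^ B + 1 := by ring
    refine ⟨c, d1, d2, fun x hx1 hx2 => ⟨b, c, ?_, ?_⟩⟩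
    · rw [abs_of_nonneg (by linarith)]
      have : (1 : ℝ) / 3 ^ B + 3 / 3 ^ B = 4 / 3 ^ B := by ring
      linarith
    · rw [abs_of_nonneg (by linarith)]
      linarith
  have b1 := Int.le_ceil (a * 2 ^ A)
  have b2 := Int.ceil_lt_add_one (a * 2 ^ A)
  set b := ⌈a * 2 ^ A⌉ with hb
  have f1 : a ≤ b / 2 ^ A := by rw [le_div_iff₀ p2]; exact b1
  have f2 : (b : ℝ) / 2 ^ A < a + 1 / 2 ^ A := by
    rw [div_lt_iff₀ p2, add_mul, one_div, inv_mul_cancel₀ p2.ne']; exact b2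
  obtain ⟨c0, g1, g2, g3⟩ := main b
  obtain ⟨c1, k1, k2, k3⟩ := main (b + 1)
  have f3 : ((b + 1 : ℤ) : ℝ) / 2 ^ A = b / 2 ^ A + 1 / 2 ^ A := by push_cast; ring
  rw [f3] at k1 k2
  have f4 : (1 : ℝ) / 3 ^ B + 3 / 3 ^ B = 4 / 3 ^ B := by ring
  have f5 : (1 : ℝ) / 2 ^ A + 1 / 2 ^ A + 1 / 2 ^ A = 3 / 2 ^ A := by ring
  exact ⟨c0 / 3 ^ B, c1 / 3 ^ B, by linarith, by linarith, by linarith, g3, k3⟩

theorem exists_alt (A B : ℕ → ℕ) (h2 : 2 ≤ A 0) (h4 : ∀ i, (4 : ℝ) * 2 ^ A i ≤ 3 ^ B i)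
    (hB : ∀ i, (3 : ℝ) ^ B i ≤ 2 ^ A (i + 1)) :
    ∃ f : ℝ → ℝ, Measurable f ∧ Set.InjOn f (Set.Ico 0 1) ∧
    ∀ t, 0 ≤ f t ∧ f t < 1 ∧ ∀ i, ∃ b c : ℤ,
      |f t - b / 2 ^ A i| ≤ 4 / 3 ^ B i ∧ |f t - c / 3 ^ B i| ≤ 3 / 2 ^ A (i + 1) := by
  obtain ⟨f, h1, h2', h3⟩ := scheme (fun j => 3 / 2 ^ A j)
    (fun i x => ∃ b c : ℤ,
      |x - b / 2 ^ A i| ≤ 4 / 3 ^ B i ∧ |x - c / 3 ^ B i| ≤ 3 / 2 ^ A (i + 1))
    (fun j => by positivity) (fun j a _ => stageA _ _ _ (h4 j) (hB j) a)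
  refine ⟨f, h1, h2', fun t => ⟨(h3 t).1, ?_, (h3 t).2.2⟩⟩
  refine (h3 t).2.1.trans_lt ?_
  show (3 : ℝ) / 2 ^ A 0 < 1
  rw [div_lt_one (by positivity)]
  calc (3 : ℝ) < 2 ^ 2 := by norm_num
    _ ≤ 2 ^ A 0 := by gcongr; norm_num

theorem pow_le_of_lam {m n : ℕ} (h : (m : ℝ) ≤ lam * n) : (2 : ℝ) ^ m ≤ 3 ^ n := by
  rw [← Real.log_le_log_iff (by positivity) (by positivity), Real.log_pow, Real.log_pow]
  have : lam * n * Real.log 2 = n * Real.log 3 := by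
    rw [lam]
    have := log2_pos.ne'
    field_simp
  rw [← this]
  exact mul_le_mul_of_nonneg_right h log2_pos.le

theorem pow_le_of_lam' {m n : ℕ} (h : lam * (m : ℝ) ≤ n) : (3 : ℝ) ^ m ≤ 2 ^ n := by
  rw [← Real.log_le_log_iff (by positivity) (by positivity), Real.log_pow, Real.log_pow]
  have : lam * m * Real.log 2 = m * Real.log 3 := by
    rw [lam]
    have := log2_pos.ne'
    field_simp
  rw [← this]
  exact mul_le_mul_of_nonneg_right h log2_pos.le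

/-- closeness of `(2 ^ k + 3 ^ k) x` to an integer, from the two approximations. -/
theorem close_int (x : ℝ) (A B B' A' k w : ℕ) (b c : ℤ) (hb : |x - b / 2 ^ A| ≤ 4 / 3 ^ B)
    (hc : |x - c / 3 ^ B'| ≤ 3 / 2 ^ A') (hkA : A ≤ k) (hkB : B' ≤ k)
    (h2 : (2 : ℝ) ^ (k + w) ≤ 3 ^ B) (h3 : (3 : ℝ) ^ (k + w) ≤ 2 ^ A') :
    ∃ m : ℤ, |((2 : ℝ) ^ k + 3 ^ k) * x - m| ≤ 7 / 2 ^ w := by
  obtain ⟨i, rfl⟩ : ∃ i, k = A + i := ⟨k - A, by omega⟩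
  obtain ⟨i', hi'⟩ : ∃ i', A + i = B' + i' := ⟨A + i - B', by omega⟩
  refine ⟨2 ^ i * b + 3 ^ i' * c, ?_⟩
  have e1 : ((2 : ℝ) ^ (A + i) + 3 ^ (A + i)) * x - ((2 ^ i * b + 3 ^ i' * c : ℤ) : ℝ) =
      2 ^ (A + i) * (x - b / 2 ^ A) + 3 ^ (A + i) * (x - c / 3 ^ B') := by
    have e2 : (3 : ℝ) ^ (A + i) * (x - c / 3 ^ B') = 3 ^ (A + i) * x - 3 ^ i' * c := by
      rw [hi', pow_add]
      field_simp
    have e3 : (2 : ℝ) ^ (A + i) * (x - b / 2 ^ A) = 2 ^ (A + i) * x - 2 ^ i * b := by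
      rw [pow_add]
      field_simp
    rw [e2, e3]
    push_cast
    ring
  rw [e1]
  refine (abs_add_le _ _).trans ?_
  rw [abs_mul, abs_mul, abs_of_pos (by positivity : (0 : ℝ) < 2 ^ (A + i)),
    abs_of_pos (by positivity : (0 : ℝ) < 3 ^ (A + i))]
  have w1 : (2 : ℝ) ^ (A + i) * |x - b / 2 ^ A| ≤ 4 / 2 ^ w := by
    calc (2 : ℝ) ^ (A + i) * |x - b / 2 ^ A| ≤ 2 ^ (A + i) * (4 / 3 ^ B) := by gcongr
      _ ≤ 2 ^ (A + i) * (4 / 2 ^ (A + i + w)) := by gcongr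
      _ = 4 / 2 ^ w := by rw [pow_add (2 : ℝ) (A + i) w]; field_simp
  have w2 : (3 : ℝ) ^ (A + i) * |x - c / 3 ^ B'| ≤ 3 / 2 ^ w := by
    calc (3 : ℝ) ^ (A + i) * |x - c / 3 ^ B'| ≤ 3 ^ (A + i) * (3 / 2 ^ A') := by gcongr
      _ ≤ 3 ^ (A + i) * (3 / 3 ^ (A + i + w)) := by gcongr
      _ = 3 / 3 ^ w := by rw [pow_add (3 : ℝ) (A + i) w]; field_simp
      _ ≤ 3 / 2 ^ w := by gcongr; norm_num
  have : (4 : ℝ) / 2 ^ w + 3 / 2 ^ w = 7 / 2 ^ w := by ring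
  linarith

/-- The good set with parameter `q`. -/
def gS (q : ℝ) : Set ℕ := {k | ∃ i : ℕ, 3 ≤ (q - 1) * q ^ (2 * i) ∧ q ^ (2 * i) + 1 ≤ k ∧
  (k : ℝ) + i ≤ q ^ (2 * i + 1)}

theorem exists_conv (r : ℕ) (q : ℝ) (hq1 : 1 < q) (hq : q ^ (2 * r + 1) = lam) :
    ∃ σ : Measure ℂ, ContProb σ ∧
    Tendsto (fun k => fc σ (2 ^ k + 3 ^ k)) (atTop ⊓ 𝓟 (gS q)) (𝓝 1) := by
  have hlam1 := lam_gt
  have hlam2 : lam < 2 := by
    rw [lam, div_lt_iff₀ log2_pos]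
    have : Real.log 3 < Real.log (2 ^ 2) := Real.log_lt_log (by norm_num) (by norm_num)
    rw [Real.log_pow] at this
    exact_mod_cast this
  have hq2 : q ≤ lam := by
    rw [← hq]
    calc q = q ^ 1 := (pow_one q).symm
      _ ≤ q ^ (2 * r + 1) := pow_le_pow_right₀ hq1.le (by omega)
  have hex : ∃ i0 : ℕ, 3 ≤ (q - 1) * q ^ (2 * i0) := by
    obtain ⟨n, hn⟩ := pow_unbounded_of_one_lt (3 / (q - 1)) hq1
    refine ⟨n, ?_⟩
    have h1 : q ^ n ≤ q ^ (2 * n) := pow_le_pow_right₀ hq1.le (by omega)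
    have h2 : 3 / (q - 1) ≤ q ^ (2 * n) := hn.le.trans h1
    rw [div_le_iff₀ (by linarith)] at h2
    linarith
  classical
  set i0 := Nat.find hex with hi0
  have hi0s := Nat.find_spec hex
  have hi0m : ∀ i, 3 ≤ (q - 1) * q ^ (2 * i) → i0 ≤ i := fun i hi => Nat.find_min' hex hi
  have hbig : ∀ i, i0 ≤ i → 3 ≤ (q - 1) * q ^ (2 * i) := by
    intro i hi
    refine hi0s.trans ?_
    have : q ^ (2 * i0) ≤ q ^ (2 * i) := pow_le_pow_right₀ hq1.le (by omega)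
    exact mul_le_mul_of_nonneg_left this (by linarith)
  let A : ℕ → ℕ := fun i => ⌈q ^ (2 * (i0 + i))⌉₊
  let B : ℕ → ℕ := fun i => ⌈q ^ (2 * (i0 + i) + 1) / lam⌉₊
  have hlpos := lam_pos
  have hqpos : 0 < q := by linarith
  have hA1 : ∀ i, q ^ (2 * (i0 + i)) ≤ A i := fun i => Nat.le_ceil _
  have hA2 : ∀ i, (A i : ℝ) < q ^ (2 * (i0 + i)) + 1 := fun i => Nat.ceil_lt_add_one (by positivity)
  have hB1 : ∀ i, q ^ (2 * (i0 + i) + 1) ≤ lam * B i := by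
    intro i
    have : q ^ (2 * (i0 + i) + 1) / lam ≤ B i := Nat.le_ceil _
    rw [div_le_iff₀ hlpos] at this
    rw [mul_comm lam]
    exact this
  have hB2 : ∀ i, lam * (B i : ℝ) < q ^ (2 * (i0 + i) + 1) + lam := by
    intro i
    have : (B i : ℝ) < q ^ (2 * (i0 + i) + 1) / lam + 1 := Nat.ceil_lt_add_one (by positivity)
    have h2 := mul_lt_mul_of_pos_left this hlpos
    rwa [mul_add, mul_one, mul_div_cancel₀ _ hlpos.ne'] at h2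
  obtain ⟨f, h1, h2, h3⟩ := exists_alt A B
    (by
      have e := hbig (i0 + 0) (by omega)
      have e1 := hA1 0
      have e2 : (2 : ℝ) ≤ A 0 := by
        have : 0 < q ^ (2 * (i0 + 0)) := by positivity
        nlinarith
      exact_mod_cast e2)
    (fun i => by
      have e := hbig (i0 + i) (by omega)
      have e1 := hA2 i
      have e2 := hB1 i
      have e3 : q ^ (2 * (i0 + i) + 1) = q * q ^ (2 * (i0 + i)) := by rw [pow_succ]; ring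
      have : (2 : ℝ) ^ (A i + 2) ≤ 3 ^ B i := by
        apply pow_le_of_lam
        push_cast
        rw [e3] at e2
        linarith
      rw [pow_add] at this
      linarith)
    (fun i => by
      have e := hbig (i0 + i) (by omega)
      have e1 := hA1 (i + 1)
      have e2 := hB2 i
      have e3 : q ^ (2 * (i0 + i) + 1) = q * q ^ (2 * (i0 + i)) := by rw [pow_succ]; ring
      have e4 : q ^ (2 * (i0 + (i + 1))) = q * q * q ^ (2 * (i0 + i)) := by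
        rw [show 2 * (i0 + (i + 1)) = 2 * (i0 + i) + 1 + 1 by ring, pow_succ, pow_succ]; ring
      apply pow_le_of_lam'
      rw [e4] at e1
      rw [e3] at e2
      have e5 : (0 : ℝ) < q ^ (2 * (i0 + i)) := by positivity
      nlinarith)
  refine ⟨push f, push_cont h1 h2 (fun t => ⟨(h3 t).1, (h3 t).2.1⟩), ?_⟩
  have hb : ∀ (i k : ℕ), 3 ≤ (q - 1) * q ^ (2 * i) → q ^ (2 * i) + 1 ≤ (k : ℝ) →
      (k : ℝ) + i ≤ q ^ (2 * i + 1) →
      ‖1 - fc (push f) (2 ^ k + 3 ^ k)‖ ≤ 2 * Real.pi * (7 / 2 ^ i) := by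
    intro i k hi hk1 hk2
    refine push_close h1 _ fun t => ?_
    obtain ⟨j, rfl⟩ : ∃ j, i = i0 + j := ⟨i - i0, by have := hi0m i hi; omega⟩
    obtain ⟨b, -, hb1, -⟩ := (h3 t).2.2 j
    obtain ⟨-, c, -, hc1⟩ := (h3 t).2.2 (j + r)
    have hqq : q ^ (2 * (i0 + (j + r)) + 1) = lam * q ^ (2 * (i0 + j)) := by
      rw [← hq, ← pow_add]; congr 1; ring
    have hqq2 : q ^ (2 * (i0 + (j + r + 1))) = lam * q ^ (2 * (i0 + j) + 1) := by
      rw [← hq, ← pow_add]; congr 1; ring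
    obtain ⟨m, hm⟩ := close_int (f t) (A j) (B j) (B (j + r)) (A (j + r + 1)) k (i0 + j) b c
      hb1 hc1
      (by
        have := hA2 j
        have h5 : (A j : ℝ) ≤ k := by linarith
        exact_mod_cast h5)
      (by
        have h4 := hB2 (j + r)
        rw [hqq] at h4
        have h5 : (B (j + r) : ℝ) ≤ k := by
          have : lam * (B (j + r) : ℝ) < lam * (q ^ (2 * (i0 + j)) + 1) := by linarith
          have := lt_of_mul_lt_mul_left this hlpos.le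
          linarith
        exact_mod_cast h5)
      (by
        apply pow_le_of_lam
        have := hB1 j
        push_cast at hk2 ⊢
        linarith)
      (by
        apply pow_le_of_lam'
        have h4 := hA1 (j + r + 1)
        rw [hqq2] at h4
        push_cast at hk2 ⊢
        have := mul_le_mul_of_nonneg_left hk2 hlpos.le
        linarith)
    refine ⟨m, ?_⟩
    push_cast
    exact hm
  rw [Metric.tendsto_nhds]
  intro ε hε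
  have t : Tendsto (fun j : ℕ => 14 * Real.pi * (1 / 2 : ℝ) ^ j) atTop (𝓝 (14 * Real.pi * 0)) :=
    (tendsto_pow_atTop_nhds_zero_of_lt_one (by norm_num) (by norm_num)).const_mul _
  rw [mul_zero] at t
  obtain ⟨J, hJ⟩ := eventually_atTop.1 (t.eventually_lt_const hε)
  rw [eventually_inf_principal]
  filter_upwards [eventually_gt_atTop ⌈q ^ (2 * J + 1)⌉₊] with k hk hkS
  obtain ⟨i, hi1, hi2, hi3⟩ := hkS
  have hJi : J ≤ i := by
    by_contra hc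
    have h5 : q ^ (2 * i + 1) ≤ q ^ (2 * J + 1) := pow_le_pow_right₀ hq1.le (by omega)
    have h6 := Nat.lt_of_ceil_lt hk
    have : (0 : ℝ) ≤ i := Nat.cast_nonneg i
    linarith
  have e1 := hb i k hi1 hi2 hi3
  have e2 := hJ i hJi
  rw [dist_eq_norm, norm_sub_rev]
  refine e1.trans_lt (lt_of_eq_of_lt ?_ e2)
  rw [div_pow, one_pow]
  ring

end Pool.Agent.Helper66.Rig
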