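import Pool.Agent.Helper66.Rig.Alt

/-!
Densities of the good set with parameter `q`.
-/

namespace Pool.Agent.Helper66.Rig

open MeasureTheory Filter Topology

/-- the error term of stage `i`. -/
noncomputable def er (K q : ℝ) (i : ℕ) : ℝ := K + (1 + q) * (i * (i + 3))

theorem er_step (K q : ℝ) (hq : 1 < q) (i : ℕ) :
    er K q i + (1 + q) * (i + 3) ≤ er K q (i + 1) := by
  simp only [er]
  push_cast
  have : (0 : ℝ) ≤ i := Nat.cast_nonneg i
  nlinarith [mul_nonneg (by linarith : (0 : ℝ) ≤ 1 + q) this]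

theorem win_cnt (q : ℝ) (i n a : ℕ) (hi : 3 ≤ (q - 1) * q ^ (2 * i)) (ha : q ^ (2 * i) + 1 ≤ a)
    (han : a ≤ n) (hn : (n : ℝ) + i ≤ q ^ (2 * i + 1) + 1) :
    (cnt (gS q) a : ℝ) + (n - a) ≤ cnt (gS q) n := by
  have h := cnt_add (gS q) a (n - a) (fun k hk1 hk2 => ⟨i, hi, by
    have : (a : ℝ) ≤ k := by exact_mod_cast hk1
    linarith, by
    have h1 : k + 1 ≤ n := by omega
    have : (k : ℝ) + 1 ≤ n := by exact_mod_cast h1
    linarith⟩)
  rw [Nat.add_sub_cancel' han] at h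
  have e : ((n - a : ℕ) : ℝ) = n - a := by push_cast [han]; ring
  rw [← e]
  exact_mod_cast h

theorem stage_low (q K : ℝ) (hq : 1 < q) (i : ℕ) (hi : 3 ≤ (q - 1) * q ^ (2 * i))
    (ih : ∀ n : ℕ, q ^ (2 * i) ≤ n → q ^ (2 * i) ≤ (1 + q) * cnt (gS q) n + er K q i)
    (n : ℕ) (h1 : q ^ (2 * i) ≤ n) (h2 : (n : ℝ) ≤ q ^ (2 * (i + 1)) + 1) :
    (n : ℝ) ≤ (1 + q) * cnt (gS q) n + er K q (i + 1) := by
  have hst := er_step K q hq i
  have hi0 : (0 : ℝ) ≤ i := Nat.cast_nonneg i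
  have hqi : 0 ≤ (1 + q) * (i : ℝ) := mul_nonneg (by linarith) hi0
  have e1 : q ^ (2 * i + 1) = q * q ^ (2 * i) := by rw [pow_succ]; ring
  have e2 : q ^ (2 * (i + 1)) = q * q * q ^ (2 * i) := by
    rw [show 2 * (i + 1) = 2 * i + 1 + 1 by ring, pow_succ, pow_succ]; ring
  set T := q ^ (2 * i) with hT
  have hTpos : 0 < T := by rw [hT]; positivity
  set a := ⌈T + 1⌉₊ with ha
  have a1 : T + 1 ≤ a := Nat.le_ceil _
  have a2 : (a : ℝ) < T + 1 + 1 := Nat.ceil_lt_add_one (by linarith)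
  have ihn := ih n h1
  have iha := ih a (by linarith)
  rcases le_total n a with hna | hna
  · have : (n : ℝ) ≤ a := by exact_mod_cast hna
    linarith
  · rcases le_total ((n : ℝ) + i) (q ^ (2 * i + 1) + 1) with hc | hc
    · have h3 := win_cnt q i n a hi a1 hna hc
      have h4 : (a : ℝ) ≤ n := by exact_mod_cast hna
      have h5 := mul_le_mul_of_nonneg_left h3 (by linarith : (0 : ℝ) ≤ 1 + q)
      nlinarith
    · rcases lt_or_ge (q * T - i + 1) (a : ℝ) with hd | hd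
      · have : (q - 1) * T < i + 1 := by linarith
        have h6 : (1 + q) * ((q - 1) * T) ≤ (1 + q) * (i + 1) :=
          mul_le_mul_of_nonneg_left this.le (by linarith)
        nlinarith
      · set m := ⌊q * T - i + 1⌋₊ with hm
        have m1 : (m : ℝ) ≤ q * T - i + 1 := Nat.floor_le (by linarith)
        have m2 : q * T - i + 1 < m + 1 := Nat.lt_floor_add_one _
        have m3 : a ≤ m := Nat.le_floor hd
        have m4 : m ≤ n := by
          have : (m : ℝ) ≤ n := by linarith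
          exact_mod_cast this
        have h3 := win_cnt q i m a hi a1 m3 (by linarith)
        have h4 : (cnt (gS q) m : ℝ) ≤ cnt (gS q) n := by exact_mod_cast cnt_mono _ m4
        have h5 := mul_le_mul_of_nonneg_left (h3.trans h4) (by linarith : (0 : ℝ) ≤ 1 + q)
        have h6 : (1 + q) * (q * T - i - (T + 2)) ≤ (1 + q) * ((m : ℝ) - a) :=
          mul_le_mul_of_nonneg_left (by linarith) (by linarith)
        nlinarith

theorem all_low (q : ℝ) (hq : 1 < q) (i0 : ℕ) (hi0 : 3 ≤ (q - 1) * q ^ (2 * i0)) (j : ℕ) :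
    ∀ n : ℕ, q ^ (2 * (i0 + j)) ≤ n →
      q ^ (2 * (i0 + j)) ≤ (1 + q) * cnt (gS q) n + er (q ^ (2 * i0)) q (i0 + j) := by
  have hbig : ∀ i, i0 ≤ i → 3 ≤ (q - 1) * q ^ (2 * i) := by
    intro i hi
    refine hi0.trans ?_
    have : q ^ (2 * i0) ≤ q ^ (2 * i) := pow_le_pow_right₀ hq.le (by omega)
    exact mul_le_mul_of_nonneg_left this (by linarith)
  induction j with
  | zero =>
    intro n _
    have : 0 ≤ (1 + q) * (cnt (gS q) n : ℝ) := by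
      have : (0 : ℝ) ≤ cnt (gS q) n := Nat.cast_nonneg _
      nlinarith
    have h2 : 0 ≤ (1 + q) * (((i0 : ℕ) : ℝ) * ((i0 : ℕ) + 3)) := by
      have : (0 : ℝ) ≤ i0 := Nat.cast_nonneg _
      have h3 : (0 : ℝ) ≤ 1 + q := by linarith
      positivity
    simp only [er, add_zero]
    linarith
  | succ j ih =>
    intro n hn
    set m := ⌈q ^ (2 * (i0 + (j + 1)))⌉₊ with hm
    have m1 : q ^ (2 * (i0 + (j + 1))) ≤ m := Nat.le_ceil _
    have m2 : (m : ℝ) < q ^ (2 * (i0 + (j + 1))) + 1 := Nat.ceil_lt_add_one (by positivity)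
    have m3 : m ≤ n := Nat.ceil_le.2 hn
    have h4 : (cnt (gS q) m : ℝ) ≤ cnt (gS q) n := by exact_mod_cast cnt_mono _ m3
    have h5 := mul_le_mul_of_nonneg_left h4 (by linarith : (0 : ℝ) ≤ 1 + q)
    have h6 : q ^ (2 * (i0 + j)) ≤ q ^ (2 * (i0 + (j + 1))) :=
      pow_le_pow_right₀ hq.le (by omega)
    have h7 := stage_low q (q ^ (2 * i0)) hq (i0 + j) (hbig _ (by omega)) ih m (h6.trans m1) m2.le
    have h8 : er (q ^ (2 * i0)) q (i0 + j + 1) = er (q ^ (2 * i0)) q (i0 + (j + 1)) := rfl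
    linarith

theorem er_small (K q : ℝ) (hq : 1 < q) {ε : ℝ} (hε : 0 < ε) :
    ∀ᶠ i : ℕ in atTop, er K q (i + 1) + (1 + q) * (i + 3) ≤ ε * q ^ (2 * i) := by
  have hqq : 1 < q ^ 2 := one_lt_pow₀ hq (by norm_num)
  have t0 := tendsto_pow_const_div_const_pow_of_one_lt 0 (r := q ^ 2) hqq
  have t1 := tendsto_pow_const_div_const_pow_of_one_lt 1 (r := q ^ 2) hqq
  have t2 := tendsto_pow_const_div_const_pow_of_one_lt 2 (r := q ^ 2) hqq
  have t : Tendsto (fun j : ℕ => (K + 7 * (1 + q)) * ((j : ℝ) ^ 0 / (q ^ 2) ^ j) +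
      (6 * (1 + q)) * ((j : ℝ) ^ 1 / (q ^ 2) ^ j) + (1 + q) * ((j : ℝ) ^ 2 / (q ^ 2) ^ j)) atTop
      (𝓝 ((K + 7 * (1 + q)) * 0 + (6 * (1 + q)) * 0 + (1 + q) * 0)) :=
    ((t0.const_mul _).add (t1.const_mul _)).add (t2.const_mul _)
  have t' : (K + 7 * (1 + q)) * 0 + (6 * (1 + q)) * 0 + (1 + q) * 0 = (0 : ℝ) := by ring
  rw [t'] at t
  filter_upwards [t.eventually_lt_const hε] with j hj
  have h2 : (0 : ℝ) < (q ^ 2) ^ j := by positivity
  have h3 : er K q (j + 1) + (1 + q) * (j + 3) = ((K + 7 * (1 + q)) * ((j : ℝ) ^ 0 / (q ^ 2) ^ j) +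
      (6 * (1 + q)) * ((j : ℝ) ^ 1 / (q ^ 2) ^ j) + (1 + q) * ((j : ℝ) ^ 2 / (q ^ 2) ^ j)) *
      (q ^ 2) ^ j := by
    have h4 : ∀ x : ℝ, x / (q ^ 2) ^ j * (q ^ 2) ^ j = x := fun x =>
      div_mul_cancel₀ x h2.ne'
    have h5 : ((K + 7 * (1 + q)) * ((j : ℝ) ^ 0 / (q ^ 2) ^ j) +
      (6 * (1 + q)) * ((j : ℝ) ^ 1 / (q ^ 2) ^ j) + (1 + q) * ((j : ℝ) ^ 2 / (q ^ 2) ^ j)) *
      (q ^ 2) ^ j = (K + 7 * (1 + q)) * ((j : ℝ) ^ 0 / (q ^ 2) ^ j * (q ^ 2) ^ j) +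
      (6 * (1 + q)) * ((j : ℝ) ^ 1 / (q ^ 2) ^ j * (q ^ 2) ^ j) +
      (1 + q) * ((j : ℝ) ^ 2 / (q ^ 2) ^ j * (q ^ 2) ^ j) := by ring
    rw [h5, h4, h4, h4, er]
    push_cast
    ring
  rw [h3, pow_mul]
  exact mul_le_mul_of_nonneg_right hj.le h2.le

theorem exists_i0 (q : ℝ) (hq1 : 1 < q) : ∃ i0 : ℕ, 3 ≤ (q - 1) * q ^ (2 * i0) := by
  obtain ⟨n, hn⟩ := pow_unbounded_of_one_lt (3 / (q - 1)) hq1
  refine ⟨n, ?_⟩
  have h1 : q ^ n ≤ q ^ (2 * n) := pow_le_pow_right₀ hq1.le (by omega)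
  have h2 : 3 / (q - 1) ≤ q ^ (2 * n) := hn.le.trans h1
  rw [div_le_iff₀ (by linarith)] at h2
  linarith

theorem lower_gS (q : ℝ) (hq : 1 < q) {ε : ℝ} (hε : 0 < ε) :
    ∀ᶠ n : ℕ in atTop, (1 / (1 + q) - ε) * n ≤ cnt (gS q) n := by
  obtain ⟨i0, hi0⟩ := exists_i0 q hq
  have hbig : ∀ i, i0 ≤ i → 3 ≤ (q - 1) * q ^ (2 * i) := by
    intro i hi
    refine hi0.trans ?_
    have : q ^ (2 * i0) ≤ q ^ (2 * i) := pow_le_pow_right₀ hq.le (by omega)
    exact mul_le_mul_of_nonneg_left this (by linarith)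
  obtain ⟨J, hJ⟩ := eventually_atTop.1 (er_small (q ^ (2 * i0)) q hq hε)
  set J' := max J i0 with hJ'
  filter_upwards [eventually_ge_atTop ⌈q ^ (2 * J')⌉₊] with n hn
  classical
  have hex : ∃ j, (n : ℝ) < q ^ (2 * j) := by
    obtain ⟨m, hm⟩ := pow_unbounded_of_one_lt (n : ℝ) hq
    exact ⟨m, hm.trans_le (pow_le_pow_right₀ hq.le (by omega))⟩
  have h1 := Nat.find_spec hex
  have h2 : ∀ m < Nat.find hex, ¬ (n : ℝ) < q ^ (2 * m) := fun m hm => Nat.find_min hex hm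
  generalize Nat.find hex = j at h1 h2
  have hJn : q ^ (2 * J') ≤ n := Nat.ceil_le.1 hn
  have hjJ : J' < j := by
    by_contra hc
    have : q ^ (2 * j) ≤ q ^ (2 * J') := pow_le_pow_right₀ hq.le (by omega)
    linarith
  obtain ⟨i, rfl⟩ : ∃ i, j = i0 + i + 1 := ⟨j - i0 - 1, by omega⟩
  have h3 : q ^ (2 * (i0 + i)) ≤ n := not_lt.1 (h2 (i0 + i) (by omega))
  have h4 := stage_low q (q ^ (2 * i0)) hq (i0 + i) (hbig _ (by omega)) (all_low q hq i0 hi0 i) n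
    h3 (by linarith)
  have h5 := hJ (i0 + i) (by omega)
  have h6 : ε * q ^ (2 * (i0 + i)) ≤ ε * n := mul_le_mul_of_nonneg_left h3 hε.le
  have h7 : 0 ≤ (1 + q) * (((i0 + i : ℕ) : ℝ) + 3) := by
    have : (0 : ℝ) ≤ ((i0 + i : ℕ) : ℝ) := Nat.cast_nonneg _
    have h3 : (0 : ℝ) ≤ 1 + q := by linarith
    positivity
  rw [sub_mul, div_mul_eq_mul_div, one_mul, sub_le_iff_le_add, div_le_iff₀ (by linarith)]
  have h8 : 0 ≤ ε * (n : ℝ) := by positivity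
  nlinarith

theorem upper_gS (q : ℝ) (hq : 1 < q) {ε : ℝ} (hε : 0 < ε) :
    ∃ᶠ n : ℕ in atTop, (q / (1 + q) - ε) * n ≤ cnt (gS q) n := by
  obtain ⟨i0, hi0⟩ := exists_i0 q hq
  have hbig : ∀ i, i0 ≤ i → 3 ≤ (q - 1) * q ^ (2 * i) := by
    intro i hi
    refine hi0.trans ?_
    have : q ^ (2 * i0) ≤ q ^ (2 * i) := pow_le_pow_right₀ hq.le (by omega)
    exact mul_le_mul_of_nonneg_left this (by linarith)
  rw [frequently_atTop]
  intro b
  have hmin : 0 < min ε (q - 1) := lt_min hε (by linarith)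
  obtain ⟨J, hJ⟩ := eventually_atTop.1 (er_small (q ^ (2 * i0)) q hq hmin)
  obtain ⟨M, hM⟩ := pow_unbounded_of_one_lt (b : ℝ) hq
  set j := max J M with hj
  set T := q ^ (2 * (i0 + j)) with hT
  have hTpos : 0 < T := by rw [hT]; positivity
  have h5 := hJ (i0 + j) (by omega)
  rw [← hT] at h5
  have h5a : min ε (q - 1) * T ≤ ε * T := mul_le_mul_of_nonneg_right (min_le_left _ _) hTpos.le
  have h5b : min ε (q - 1) * T ≤ (q - 1) * T :=
    mul_le_mul_of_nonneg_right (min_le_right _ _) hTpos.le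
  have hin : (0 : ℝ) ≤ ((i0 + j : ℕ) : ℝ) := Nat.cast_nonneg _
  have hK : 0 < q ^ (2 * i0) := by positivity
  have her : 0 ≤ er (q ^ (2 * i0)) q (i0 + j + 1) := by
    have h3 : (0 : ℝ) ≤ 1 + q := by linarith
    simp only [er]
    positivity
  have her2 : 0 ≤ (1 + q) * (((i0 + j : ℕ) : ℝ)) := mul_nonneg (by linarith) hin
  have hst := er_step (q ^ (2 * i0)) q hq (i0 + j)
  have e1 : q ^ (2 * (i0 + j) + 1) = q * T := by rw [pow_succ]; ring
  set a := ⌈T + 1⌉₊ with ha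
  have a1 : T + 1 ≤ a := Nat.le_ceil _
  have a2 : (a : ℝ) < T + 1 + 1 := Nat.ceil_lt_add_one (by linarith)
  have hd : (a : ℝ) ≤ q * T - ((i0 + j : ℕ) : ℝ) + 1 := by nlinarith
  set m := ⌊q * T - ((i0 + j : ℕ) : ℝ) + 1⌋₊ with hm
  have m1 : (m : ℝ) ≤ q * T - ((i0 + j : ℕ) : ℝ) + 1 := Nat.floor_le (by linarith)
  have m2 : q * T - ((i0 + j : ℕ) : ℝ) + 1 < m + 1 := Nat.lt_floor_add_one _
  have m3 : a ≤ m := Nat.le_floor hd
  have m3' : (a : ℝ) ≤ m := by exact_mod_cast m3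
  refine ⟨m, ?_, ?_⟩
  · have h6 : q ^ M ≤ T := pow_le_pow_right₀ hq.le (by omega)
    have : (b : ℝ) ≤ m := by linarith
    exact_mod_cast this
  · have h3 := win_cnt q (i0 + j) m a (hbig _ (by omega)) a1 m3 (by rw [e1]; linarith)
    have h4 := all_low q hq i0 hi0 j a (by linarith)
    rw [← hT] at h4
    have h7 := mul_le_mul_of_nonneg_left h3 (by linarith : (0 : ℝ) ≤ 1 + q)
    have h8 : ε * T ≤ ε * m := mul_le_mul_of_nonneg_left (by linarith) hε.le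
    have h9 : 0 ≤ ε * (m : ℝ) := by positivity
    rw [sub_mul, div_mul_eq_mul_div, sub_le_iff_le_add, div_le_iff₀ (by linarith)]
    nlinarith

end Pool.Agent.Helper66.Rig
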