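import Pool.Agent.Helper66.Rig.Dens

namespace Pool.Agent.Helper66.Rig

open MeasureTheory Filter Topology

theorem fin_inter (S : Set ℕ) (n : ℕ) : (S ∩ Set.Iio n).Finite :=
  (Set.finite_Iio n).subset Set.inter_subset_right

theorem cnt_mono (S : Set ℕ) : Monotone (cnt S) := fun _ b h =>
  Set.ncard_le_ncard (Set.inter_subset_inter_right S (Set.Iio_subset_Iio h)) (fin_inter S b)

theorem cnt_add (S : Set ℕ) (n m : ℕ) (h : ∀ k, n ≤ k → k < n + m → k ∈ S) :
    cnt S n + m ≤ cnt S (n + m) := by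
  have h1 : (S ∩ Set.Iio n) ∪ Set.Ico n (n + m) ⊆ S ∩ Set.Iio (n + m) := by
    rintro k (hk | hk)
    · exact ⟨hk.1, lt_of_lt_of_le (Set.mem_Iio.1 hk.2) (by omega)⟩
    · exact ⟨h k hk.1 hk.2, hk.2⟩
  have hdisj : Disjoint (S ∩ Set.Iio n) (Set.Ico n (n + m)) := by
    rw [Set.disjoint_left]
    rintro k ⟨-, hk⟩ hk2
    have h3 := Set.mem_Iio.1 hk
    have h4 := hk2.1
    omega
  have h2 := Set.ncard_le_ncard h1 (fin_inter S _)
  rw [Set.ncard_union_eq hdisj (fin_inter S n) (Set.finite_Ico _ _)] at h2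
  have h3 : (Set.Ico n (n + m)).ncard = m := by
    rw [← Finset.coe_Ico, Set.ncard_coe_finset]
    simp
  rw [h3] at h2
  exact h2

noncomputable def lam : ℝ := Real.log 3 / Real.log 2

theorem log2_pos : 0 < Real.log 2 := Real.log_pos (by norm_num)

theorem lam_pos : 0 < lam := div_pos (Real.log_pos (by norm_num)) log2_pos

theorem lam_one : 1 + lam = Real.log 6 / Real.log 2 := by
  have : Real.log 6 = Real.log 2 + Real.log 3 := by
    rw [← Real.log_mul (by norm_num) (by norm_num)]; norm_num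
  rw [this, add_div, div_self log2_pos.ne', lam]

theorem log_lam (n : ℕ) : (Nat.log 2 (3 ^ n) : ℝ) ≤ lam * n ∧
    lam * n < (Nat.log 2 (3 ^ n) : ℝ) + 1 := by
  obtain ⟨h1, h2⟩ := log_bd n
  have h3 := Real.log_le_log (by positivity) h1
  have h4 := Real.log_lt_log (by positivity) h2
  rw [Real.log_pow, Real.log_pow] at h3 h4
  push_cast at h4
  have e : lam * n = n * Real.log 3 / Real.log 2 := by rw [lam]; ring
  rw [e]
  exact ⟨(le_div_iff₀ log2_pos).2 h3, (div_lt_iff₀ log2_pos).2 h4⟩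

/-- the error term. -/
noncomputable def err (j : ℕ) : ℝ := 4 + j * (2 + (1 + lam) * j)

theorem err_step (j : ℕ) : err j + 2 + (1 + lam) * j ≤ err (j + 1) := by
  have := lam_pos
  simp only [err]
  push_cast
  have : (0 : ℝ) ≤ j := Nat.cast_nonneg j
  nlinarith

theorem cnt_win (j n : ℕ) (h1 : sN j ≤ n) (h2 : n + j ≤ sM j + 1) :
    cnt goodSet (sN j) + (n - sN j) ≤ cnt goodSet n := by
  have := cnt_add goodSet (sN j) (n - sN j) (fun k hk1 hk2 => ⟨j, hk1, by omega⟩)
  rwa [Nat.add_sub_cancel' h1] at this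

/-- basic lower bound at all times of stage `j`. -/
theorem lower_stage (j : ℕ) (ih : (sN j : ℝ) ≤ (1 + lam) * cnt goodSet (sN j) + err j)
    (n : ℕ) (h1 : sN j ≤ n) (h2 : n ≤ sN (j + 1)) :
    (n : ℝ) ≤ (1 + lam) * cnt goodSet n + err (j + 1) := by
  have hl := lam_pos
  have hst := err_step j
  have hj : (0 : ℝ) ≤ j := Nat.cast_nonneg j
  by_cases hc : n + j ≤ sM j + 1
  · have h3 := cnt_win j n h1 hc
    have h4 : (cnt goodSet (sN j) : ℝ) + (n - sN j) ≤ cnt goodSet n := by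
      have : ((n - sN j : ℕ) : ℝ) = n - sN j := by push_cast [h1]; ring
      rw [← this]
      exact_mod_cast h3
    have h5 : (sN j : ℝ) ≤ n := by exact_mod_cast h1
    nlinarith [mul_le_mul_of_nonneg_left h4 (by linarith : (0 : ℝ) ≤ 1 + lam)]
  · have hMj := sM_ge' j
    set n' := sM j + 1 - j with hn'
    have h3 := cnt_win j n' (by omega) (by omega)
    have h3' : cnt goodSet n' ≤ cnt goodSet n := cnt_mono _ (by omega)
    have h4 : (cnt goodSet (sN j) : ℝ) + ((sM j : ℝ) + 1 - j - sN j) ≤ cnt goodSet n := by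
      have e : ((n' - sN j : ℕ) : ℝ) = (sM j : ℝ) + 1 - j - sN j := by
        have : n' - sN j + (j + sN j) = sM j + 1 := by omega
        have h6 : ((n' - sN j : ℕ) : ℝ) + (j + sN j) = sM j + 1 := by exact_mod_cast this
        linarith
      rw [← e]
      exact_mod_cast h3.trans h3'
    have g1 := log_lam (sN j)
    rw [← sM] at g1
    have g2 := log_lam (sM j)
    have g3 : ((sN (j + 1) : ℕ) : ℝ) = (Nat.log 2 (3 ^ sM j) : ℝ) + 1 := by
      rw [sN_succ]; push_cast; ring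
    have g4 : (n : ℝ) ≤ sN (j + 1) := by exact_mod_cast h2
    nlinarith [mul_le_mul_of_nonneg_left h4 (by linarith : (0 : ℝ) ≤ 1 + lam)]

theorem lower_all (j : ℕ) : (sN j : ℝ) ≤ (1 + lam) * cnt goodSet (sN j) + err j := by
  induction j with
  | zero =>
    have hl := lam_pos
    have : (0 : ℝ) ≤ (1 + lam) * cnt goodSet (sN 0) := by positivity
    simp only [sN, err] at *
    push_cast
    linarith
  | succ j ih => exact lower_stage j ih _ (sN_strict (by omega : j < j + 1)).le le_rfl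

/-- the stage of `n`. -/
theorem exists_stage (n : ℕ) (h : 4 ≤ n) : ∃ j, sN j ≤ n ∧ n < sN (j + 1) := by
  classical
  have hex : ∃ j, n < sN j := ⟨n, lt_of_lt_of_le (by
    have : n < 2 ^ n := Nat.lt_two_pow_self
    omega) (sN_ge n)⟩
  have h1 := Nat.find_spec hex
  have h2 : ∀ m < Nat.find hex, ¬ n < sN m := fun m hm => Nat.find_min hex hm
  set j := Nat.find hex
  have hj : j ≠ 0 := by
    intro h0
    rw [h0] at h1
    simp only [sN] at h1
    omega
  refine ⟨j - 1, ?_, ?_⟩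
  · have := h2 (j - 1) (by omega)
    omega
  · rwa [Nat.sub_add_cancel (by omega)]

theorem err_small {ε : ℝ} (hε : 0 < ε) : ∀ᶠ j : ℕ in atTop, err (j + 1) + lam ≤ ε * sN j := by
  have hl := lam_pos
  have t0 := tendsto_pow_const_div_const_pow_of_one_lt 0 (r := (2 : ℝ)) (by norm_num)
  have t1 := tendsto_pow_const_div_const_pow_of_one_lt 1 (r := (2 : ℝ)) (by norm_num)
  have t2 := tendsto_pow_const_div_const_pow_of_one_lt 2 (r := (2 : ℝ)) (by norm_num)
  have t : Tendsto (fun j : ℕ => (7 + 2 * lam) * ((j : ℝ) ^ 0 / 2 ^ j) +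
      (4 + 2 * lam) * ((j : ℝ) ^ 1 / 2 ^ j) + (1 + lam) * ((j : ℝ) ^ 2 / 2 ^ j)) atTop
      (𝓝 ((7 + 2 * lam) * 0 + (4 + 2 * lam) * 0 + (1 + lam) * 0)) :=
    ((t0.const_mul _).add (t1.const_mul _)).add (t2.const_mul _)
  have t' : (7 + 2 * lam) * 0 + (4 + 2 * lam) * 0 + (1 + lam) * 0 = (0 : ℝ) := by ring
  rw [t'] at t
  filter_upwards [t.eventually_lt_const hε] with j hj
  have h1 : (4 : ℝ) * 2 ^ j ≤ sN j := by exact_mod_cast sN_ge j
  have h2 : (0 : ℝ) < 2 ^ j := by positivity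
  have h3 : err (j + 1) + lam = ((7 + 2 * lam) * ((j : ℝ) ^ 0 / 2 ^ j) +
      (4 + 2 * lam) * ((j : ℝ) ^ 1 / 2 ^ j) + (1 + lam) * ((j : ℝ) ^ 2 / 2 ^ j)) * 2 ^ j := by
    rw [err]
    push_cast
    field_simp
    ring
  rw [h3]
  calc _ ≤ ε * 2 ^ j := by gcongr
    _ ≤ ε * sN j := by
      gcongr
      linarith

theorem lower_density {ε : ℝ} (hε : 0 < ε) :
    ∀ᶠ n : ℕ in atTop, (Real.log 2 / Real.log 6 - ε) * n ≤ cnt goodSet n := by
  have hl := lam_pos
  have hl6 : Real.log 2 / Real.log 6 = 1 / (1 + lam) := by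
    rw [lam_one, one_div_div]
  obtain ⟨J, hJ⟩ := eventually_atTop.1 (err_small hε)
  filter_upwards [eventually_ge_atTop (sN J), eventually_ge_atTop 4] with n hn hn4
  obtain ⟨j, hj1, hj2⟩ := exists_stage n hn4
  have hJj : J ≤ j := by
    by_contra hc
    have : sN (j + 1) ≤ sN J := sN_strict.monotone (by omega)
    omega
  have h1 := lower_stage j (lower_all j) n hj1 hj2.le
  have h2 := hJ j hJj
  have h3 : (sN j : ℝ) ≤ n := by exact_mod_cast hj1
  rw [hl6, sub_mul, div_mul_eq_mul_div, one_mul, sub_le_iff_le_add, div_le_iff₀ (by linarith)]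
  have h4 : ε * (sN j : ℝ) ≤ ε * n := by gcongr
  have h5 : ε * (n : ℝ) ≤ ε * n * (1 + lam) := by
    have : 0 ≤ ε * (n : ℝ) := by positivity
    nlinarith
  nlinarith

theorem upper_density {ε : ℝ} (hε : 0 < ε) :
    ∃ᶠ n : ℕ in atTop, (Real.log 3 / Real.log 6 - ε) * n ≤ cnt goodSet n := by
  have hl := lam_pos
  have hl6 : Real.log 3 / Real.log 6 = lam / (1 + lam) := by
    rw [lam_one, lam]
    have := log2_pos.ne'
    have h6 : Real.log 6 ≠ 0 := (Real.log_pos (by norm_num)).ne'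
    field_simp
  rw [frequently_atTop]
  intro a
  obtain ⟨J, hJ⟩ := eventually_atTop.1 (err_small hε)
  set j := max J a with hj
  have hMj := sM_ge' j
  set n := sM j + 1 - j with hn
  have hnN : sN j ≤ n := by omega
  have ha : a ≤ n := by
    have h1 := sN_ge j
    have h2 : j < 2 ^ j := Nat.lt_two_pow_self
    have h3 : a ≤ j := le_max_right _ _
    omega
  refine ⟨n, ha, ?_⟩
  have h1 := cnt_win j n hnN (by omega)
  have e1 : (n : ℝ) = sM j + 1 - j := by
    have : n + j = sM j + 1 := by omega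
    have h6 : (n : ℝ) + j = sM j + 1 := by exact_mod_cast this
    linarith
  have h4 : (cnt goodSet (sN j) : ℝ) + (n - sN j) ≤ cnt goodSet n := by
    have : ((n - sN j : ℕ) : ℝ) = n - sN j := by push_cast [hnN]; ring
    rw [← this]
    exact_mod_cast h1
  have h5 := lower_all j
  have h6 := err_step j
  have h7 := hJ j (le_max_left _ _)
  have g1 := log_lam (sN j)
  rw [← sM] at g1
  have hjn : (0 : ℝ) ≤ j := Nat.cast_nonneg j
  have h8 : (sN j : ℝ) ≤ n := by exact_mod_cast hnN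
  rw [hl6, sub_mul, div_mul_eq_mul_div, sub_le_iff_le_add, div_le_iff₀ (by linarith)]
  have h9 : ε * (sN j : ℝ) ≤ ε * n := by gcongr
  have h10 : ε * (n : ℝ) ≤ ε * n * (1 + lam) := by
    have : 0 ≤ ε * (n : ℝ) := by positivity
    nlinarith
  nlinarith [mul_le_mul_of_nonneg_left h4 (by linarith : (0 : ℝ) ≤ 1 + lam)]

/-- convergence along the good set. -/
theorem exists_density : ∃ σ : Measure ℂ, ContProb σ ∧
    Tendsto (fun k => fc σ (2 ^ k + 3 ^ k)) (atTop ⊓ 𝓟 goodSet) (𝓝 1) := by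
  obtain ⟨f, h1, h2, h3⟩ := exists_good
  refine ⟨push f, push_cont h1 h2 (fun t => ⟨(h3 t).1, (h3 t).2.1⟩), ?_⟩
  have hb : ∀ j k, sN j ≤ k → k + j ≤ sM j →
      ‖1 - fc (push f) (2 ^ k + 3 ^ k)‖ ≤ 2 * Real.pi * (7 / 2 ^ j) := by
    intro j k hk1 hk2
    refine push_close h1 _ fun t => ?_
    obtain ⟨m, hm⟩ := (h3 t).2.2 j k hk1 hk2
    refine ⟨m, ?_⟩
    push_cast
    exact hm
  rw [Metric.tendsto_nhds]
  intro ε hε
  have t : Tendsto (fun j : ℕ => 14 * Real.pi * (1 / 2 : ℝ) ^ j) atTop (𝓝 (14 * Real.pi * 0)) :=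
    (tendsto_pow_atTop_nhds_zero_of_lt_one (by norm_num) (by norm_num)).const_mul _
  rw [mul_zero] at t
  obtain ⟨J, hJ⟩ := eventually_atTop.1 (t.eventually_lt_const hε)
  rw [eventually_inf_principal]
  filter_upwards [eventually_gt_atTop (sM J)] with k hk hkS
  obtain ⟨j, hj1, hj2⟩ := hkS
  have hJj : J ≤ j := by
    by_contra hc
    have : sM j ≤ sM J := sM_strict.monotone (by omega)
    omega
  have e1 := hb j k hj1 hj2
  have e2 := hJ j hJj
  rw [dist_eq_norm, norm_sub_rev]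
  refine e1.trans_lt (lt_of_eq_of_lt ?_ e2)
  rw [div_pow, one_pow]
  ring

end Pool.Agent.Helper66.Rig
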