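import Pool.Agent.Helper66.Rig.Push

namespace Pool.Agent.Helper66.Rig

open MeasureTheory Filter Topology

/-- One stage of the construction. -/
theorem stage (N M N' j : ℕ) (h4 : (4 : ℝ) * 2 ^ N ≤ 3 ^ N) (hNM : N ≤ M)
    (hM : (2 : ℝ) ^ M ≤ 3 ^ N) (hN' : (3 : ℝ) ^ M ≤ 2 ^ N') (a : ℝ) :
    ∃ a0 a1 : ℝ, a ≤ a0 ∧ a0 + 3 / 2 ^ N' < a1 ∧ a1 + 3 / 2 ^ N' ≤ a + 3 / 2 ^ N ∧
      (∀ x, a0 ≤ x → x ≤ a0 + 3 / 2 ^ N' → ∀ k, N ≤ k → k + j ≤ M →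
        ∃ m : ℤ, |((2 : ℝ) ^ k + 3 ^ k) * x - m| ≤ 7 / 2 ^ j) ∧
      (∀ x, a1 ≤ x → x ≤ a1 + 3 / 2 ^ N' → ∀ k, N ≤ k → k + j ≤ M →
        ∃ m : ℤ, |((2 : ℝ) ^ k + 3 ^ k) * x - m| ≤ 7 / 2 ^ j) := by
  have p2 : (0 : ℝ) < 2 ^ N := by positivity
  have p3 : (0 : ℝ) < 3 ^ N := by positivity
  have p3M : (0 : ℝ) < 3 ^ M := by positivity
  have hℓ : (3 : ℝ) / 2 ^ N' ≤ 3 / 3 ^ M := by gcongr
  have hℓ2 : (3 : ℝ) / 3 ^ M ≤ 3 / 3 ^ N := by gcongr; norm_num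
  have h43 : (4 : ℝ) / 3 ^ N ≤ 1 / 2 ^ N := by
    rw [div_le_div_iff₀ p3 p2]; linarith
  -- the common part
  have main : ∀ b : ℤ, ∃ c : ℤ, (b : ℝ) / 2 ^ N ≤ c / 3 ^ N ∧
      (c : ℝ) / 3 ^ N < b / 2 ^ N + 1 / 3 ^ N ∧
      (∀ x, (c : ℝ) / 3 ^ N ≤ x → x ≤ c / 3 ^ N + 3 / 2 ^ N' → ∀ k, N ≤ k → k + j ≤ M →
        ∃ m : ℤ, |((2 : ℝ) ^ k + 3 ^ k) * x - m| ≤ 7 / 2 ^ j) := by
    intro b
    have c1 := Int.le_ceil ((3 : ℝ) ^ N * b / 2 ^ N)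
    have c2 := Int.ceil_lt_add_one ((3 : ℝ) ^ N * b / 2 ^ N)
    set c := ⌈(3 : ℝ) ^ N * b / 2 ^ N⌉ with hc
    have d1 : (b : ℝ) / 2 ^ N ≤ c / 3 ^ N := by
      rw [le_div_iff₀ p3]
      calc (b : ℝ) / 2 ^ N * 3 ^ N = 3 ^ N * b / 2 ^ N := by ring
        _ ≤ c := c1
    have d2 : (c : ℝ) / 3 ^ N < b / 2 ^ N + 1 / 3 ^ N := by
      rw [div_lt_iff₀ p3, add_mul, one_div, inv_mul_cancel₀ p3.ne']
      calc (c : ℝ) < 3 ^ N * b / 2 ^ N + 1 := c2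
        _ = b / 2 ^ N * 3 ^ N + 1 := by ring
    refine ⟨c, d1, d2, fun x hx1 hx2 k hk1 hk2 => ?_⟩
    refine ⟨2 ^ (k - N) * b + 3 ^ (k - N) * c, ?_⟩
    obtain ⟨i, rfl⟩ : ∃ i, k = N + i := ⟨k - N, by omega⟩
    have hsub : N + i - N = i := by omega
    rw [hsub]
    have e1 : ((2 : ℝ) ^ (N + i) + 3 ^ (N + i)) * x - ((2 ^ i * b + 3 ^ i * c : ℤ) : ℝ) =
        2 ^ (N + i) * (x - b / 2 ^ N) + 3 ^ (N + i) * (x - c / 3 ^ N) := by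
      push_cast
      rw [pow_add, pow_add]
      field_simp
      ring
    rw [e1]
    have u0 : 0 ≤ x - b / 2 ^ N := by linarith
    have u1 : x - b / 2 ^ N ≤ 4 / 3 ^ N := by
      have : (1 : ℝ) / 3 ^ N + 3 / 3 ^ N = 4 / 3 ^ N := by ring
      linarith
    have v0 : 0 ≤ x - c / 3 ^ N := by linarith
    have v1 : x - c / 3 ^ N ≤ 3 / 3 ^ M := by linarith
    have q1 : (2 : ℝ) ^ (N + i) ≤ 3 ^ N / 2 ^ j := by
      rw [le_div_iff₀ (by positivity), ← pow_add]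
      calc (2 : ℝ) ^ (N + i + j) ≤ 2 ^ M := by gcongr; norm_num
        _ ≤ 3 ^ N := hM
    have q2 : (3 : ℝ) ^ (N + i) ≤ 3 ^ M / 2 ^ j := by
      rw [le_div_iff₀ (by positivity)]
      calc (3 : ℝ) ^ (N + i) * 2 ^ j ≤ 3 ^ (N + i) * 3 ^ j := by gcongr; norm_num
        _ = 3 ^ (N + i + j) := by rw [← pow_add]
        _ ≤ 3 ^ M := by gcongr; norm_num
    have w1 : (2 : ℝ) ^ (N + i) * (x - b / 2 ^ N) ≤ 4 / 2 ^ j := by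
      calc (2 : ℝ) ^ (N + i) * (x - b / 2 ^ N) ≤ 3 ^ N / 2 ^ j * (4 / 3 ^ N) := by gcongr
        _ = 4 / 2 ^ j := by field_simp
    have w2 : (3 : ℝ) ^ (N + i) * (x - c / 3 ^ N) ≤ 3 / 2 ^ j := by
      calc (3 : ℝ) ^ (N + i) * (x - c / 3 ^ N) ≤ 3 ^ M / 2 ^ j * (3 / 3 ^ M) := by gcongr
        _ = 3 / 2 ^ j := by field_simp
    rw [abs_of_nonneg (by positivity)]
    have : (4 : ℝ) / 2 ^ j + 3 / 2 ^ j = 7 / 2 ^ j := by ring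
    linarith
  have b1 := Int.le_ceil (a * 2 ^ N)
  have b2 := Int.ceil_lt_add_one (a * 2 ^ N)
  set b := ⌈a * 2 ^ N⌉ with hb
  have f1 : a ≤ b / 2 ^ N := by rw [le_div_iff₀ p2]; exact b1
  have f2 : (b : ℝ) / 2 ^ N < a + 1 / 2 ^ N := by
    rw [div_lt_iff₀ p2, add_mul, one_div, inv_mul_cancel₀ p2.ne']; exact b2
  obtain ⟨c0, g1, g2, g3⟩ := main b
  obtain ⟨c1, k1, k2, k3⟩ := main (b + 1)
  have f3 : ((b + 1 : ℤ) : ℝ) / 2 ^ N = b / 2 ^ N + 1 / 2 ^ N := by push_cast; ring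
  rw [f3] at k1 k2
  have f4 : (1 : ℝ) / 3 ^ N + 3 / 3 ^ N = 4 / 3 ^ N := by ring
  have f5 : (1 : ℝ) / 2 ^ N + 1 / 2 ^ N + 1 / 2 ^ N = 3 / 2 ^ N := by ring
  exact ⟨c0 / 3 ^ N, c1 / 3 ^ N, by linarith, by linarith, by linarith, g3, k3⟩

/-- The scales. -/
noncomputable def sN : ℕ → ℕ
  | 0 => 4
  | j + 1 => Nat.log 2 (3 ^ Nat.log 2 (3 ^ sN j)) + 1

noncomputable def sM (j : ℕ) : ℕ := Nat.log 2 (3 ^ sN j)

theorem sN_succ (j : ℕ) : sN (j + 1) = Nat.log 2 (3 ^ sM j) + 1 := rfl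

/-- The set of good times. -/
def goodSet : Set ℕ := {k | ∃ j, sN j ≤ k ∧ k + j ≤ sM j}

theorem log_bd (n : ℕ) : (2 : ℝ) ^ Nat.log 2 (3 ^ n) ≤ 3 ^ n ∧
    (3 : ℝ) ^ n < 2 ^ (Nat.log 2 (3 ^ n) + 1) := by
  constructor
  · have := Nat.pow_log_le_self 2 (x := 3 ^ n) (by positivity)
    exact_mod_cast this
  · have := Nat.lt_pow_succ_log_self (b := 2) (by norm_num) (3 ^ n)
    exact_mod_cast this

theorem log_ge (n : ℕ) (_h : 2 ≤ n) : n + n / 2 ≤ Nat.log 2 (3 ^ n) := by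
  apply Nat.le_log_of_pow_le (by norm_num)
  have h1 : n = 2 * (n / 2) + n % 2 := by omega
  calc 2 ^ (n + n / 2) = 2 ^ (3 * (n / 2) + n % 2) := by congr 1; omega
    _ = 8 ^ (n / 2) * 2 ^ (n % 2) := by rw [pow_add, pow_mul]; norm_num
    _ ≤ 9 ^ (n / 2) * 3 ^ (n % 2) := by gcongr <;> norm_num
    _ = 3 ^ n := by
      conv_rhs => rw [h1, pow_add, pow_mul]
      norm_num

theorem sN_ge (j : ℕ) : 4 * 2 ^ j ≤ sN j := by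
  induction j with
  | zero => simp [sN]
  | succ j ih =>
    have h0 : 1 ≤ 2 ^ j := Nat.one_le_two_pow
    have h1 := log_ge (sN j) (by omega)
    have h2 := log_ge (sM j) (by rw [sM]; omega)
    rw [sN_succ]
    rw [← sM] at h1
    rw [pow_succ]
    omega

theorem sM_ge (j : ℕ) : sN j + sN j / 2 ≤ sM j := by
  have h0 : 1 ≤ 2 ^ j := Nat.one_le_two_pow
  have := sN_ge j
  exact log_ge (sN j) (by omega)

theorem sM_ge' (j : ℕ) : sN j + j ≤ sM j := by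
  have h1 := sM_ge j
  have h2 := sN_ge j
  have h3 : j < 2 ^ j := Nat.lt_two_pow_self
  omega

theorem sN_lt (j : ℕ) : sM j < sN (j + 1) := by
  have h := sM_ge j
  have h0 : 1 ≤ 2 ^ j := Nat.one_le_two_pow
  have h2 := sN_ge j
  have := log_ge (sM j) (by omega)
  rw [sN_succ]
  omega

theorem sN_strict : StrictMono sN := strictMono_nat_of_lt_succ fun j => by
  have h1 := sM_ge' j
  have h2 := sN_lt j
  omega

theorem sM_strict : StrictMono sM := strictMono_nat_of_lt_succ fun j => by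
  have h1 := sM_ge' (j + 1)
  have h2 := sN_lt j
  omega

theorem exists_good : ∃ f : ℝ → ℝ, Measurable f ∧ Set.InjOn f (Set.Ico 0 1) ∧
    ∀ t, 0 ≤ f t ∧ f t < 1 ∧ ∀ j, ∀ k, sN j ≤ k → k + j ≤ sM j →
      ∃ m : ℤ, |((2 : ℝ) ^ k + 3 ^ k) * f t - m| ≤ 7 / 2 ^ j := by
  obtain ⟨f, h1, h2, h3⟩ := scheme (fun j => 3 / 2 ^ sN j)
    (fun j x => ∀ k, sN j ≤ k → k + j ≤ sM j → ∃ m : ℤ, |((2 : ℝ) ^ k + 3 ^ k) * x - m| ≤ 7 / 2 ^ j)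
    (fun j => by positivity) (fun j a _ => by
      have h4 : (4 : ℝ) * 2 ^ sN j ≤ 3 ^ sN j := by
        have h0 : 1 ≤ 2 ^ j := Nat.one_le_two_pow
        obtain ⟨i, hi⟩ : ∃ i, sN j = 4 + i := ⟨sN j - 4, by have := sN_ge j; omega⟩
        rw [hi, pow_add, pow_add]
        have : (2 : ℝ) ^ i ≤ 3 ^ i := by gcongr; norm_num
        have h5 : (0 : ℝ) < 2 ^ i := by positivity
        nlinarith
      exact stage (sN j) (sM j) (sN (j + 1)) j h4 (by have := sM_ge j; omega)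
        (log_bd (sN j)).1 (log_bd (sM j)).2.le a)
  refine ⟨f, h1, h2, fun t => ⟨(h3 t).1, ?_, (h3 t).2.2⟩⟩
  refine (h3 t).2.1.trans_lt ?_
  simp only [sN]
  norm_num

end Pool.Agent.Helper66.Rig
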