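import Pool.Agent.Helper66.Rig.Defs

namespace Pool.Agent.Helper66.Rig

open MeasureTheory Filter Topology

/-- an integer of absolute value `< 1` is `0` (real form). -/
theorem int_zero {m : ℤ} (h : |(m : ℝ)| < 1) : m = 0 := by
  have : |m| < 1 := by exact_mod_cast h
  exact Int.abs_lt_one_iff.1 this

/-- Key arithmetic lemma: if all `n_k x`, `N ≤ k ≤ M`, are within `1/13` of integers and
`4 * 6 ^ N ≤ 2 ^ M`, then `x` is within `2 ^ (-N)` of an integer. -/
theorem key (x : ℝ) (N M : ℕ) (hNM : N < M) (hM : (4 : ℝ) * 6 ^ N ≤ 2 ^ M) (r : ℕ → ℤ)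
    (hr : ∀ k, N ≤ k → k ≤ M → |((2 : ℝ) ^ k + 3 ^ k) * x - r k| < 1 / 13) :
    ∃ e : ℤ, |x - e| ≤ 1 / 2 ^ N := by
  set u : ℕ → ℝ := fun k => (2 : ℝ) ^ k * x - ((3 * r k - r (k + 1) : ℤ) : ℝ) with hu
  set v : ℕ → ℝ := fun k => (3 : ℝ) ^ k * x - ((r (k + 1) - 2 * r k : ℤ) : ℝ) with hv
  have hub : ∀ k, N ≤ k → k < M → |u k| < 4 / 13 := by
    intro k h1 h2
    have e1 := abs_lt.1 (hr k h1 h2.le)
    have e2 := abs_lt.1 (hr (k + 1) (by omega) h2)
    have : u k = 3 * (((2 : ℝ) ^ k + 3 ^ k) * x - r k) -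
        (((2 : ℝ) ^ (k + 1) + 3 ^ (k + 1)) * x - r (k + 1)) := by
      simp only [hu]; push_cast; ring
    rw [this, abs_lt]
    constructor <;> linarith [e1.1, e1.2, e2.1, e2.2]
  have hvb : ∀ k, N ≤ k → k < M → |v k| < 3 / 13 := by
    intro k h1 h2
    have e1 := abs_lt.1 (hr k h1 h2.le)
    have e2 := abs_lt.1 (hr (k + 1) (by omega) h2)
    have : v k = (((2 : ℝ) ^ (k + 1) + 3 ^ (k + 1)) * x - r (k + 1)) -
        2 * (((2 : ℝ) ^ k + 3 ^ k) * x - r k) := by
      simp only [hv]; push_cast; ring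
    rw [this, abs_lt]
    constructor <;> linarith [e1.1, e1.2, e2.1, e2.2]
  have hus : ∀ k, N ≤ k → k + 1 < M → u (k + 1) = 2 * u k := by
    intro k h1 h2
    have e1 := abs_lt.1 (hub k h1 (by omega))
    have e2 := abs_lt.1 (hub (k + 1) (by omega) h2)
    have e3 : u (k + 1) - 2 * u k =
        ((2 * (3 * r k - r (k + 1)) - (3 * r (k + 1) - r (k + 1 + 1)) : ℤ) : ℝ) := by
      simp only [hu]; push_cast; ring
    have e4 := int_zero (m := 2 * (3 * r k - r (k + 1)) - (3 * r (k + 1) - r (k + 1 + 1))) (by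
      rw [← e3, abs_lt]
      constructor <;> linarith [e1.1, e1.2, e2.1, e2.2])
    rw [e4] at e3
    push_cast at e3
    linarith
  have hvs : ∀ k, N ≤ k → k + 1 < M → v (k + 1) = 3 * v k := by
    intro k h1 h2
    have e1 := abs_lt.1 (hvb k h1 (by omega))
    have e2 := abs_lt.1 (hvb (k + 1) (by omega) h2)
    have e3 : v (k + 1) - 3 * v k =
        ((3 * (r (k + 1) - 2 * r k) - (r (k + 1 + 1) - 2 * r (k + 1)) : ℤ) : ℝ) := by
      simp only [hv]; push_cast; ring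
    have e4 := int_zero (m := 3 * (r (k + 1) - 2 * r k) - (r (k + 1 + 1) - 2 * r (k + 1))) (by
      rw [← e3, abs_lt]
      constructor <;> linarith [e1.1, e1.2, e2.1, e2.2])
    rw [e4] at e3
    push_cast at e3
    linarith
  have hup : ∀ j, N + j < M → u (N + j) = 2 ^ j * u N := by
    intro j
    induction j with
    | zero => intro _; simp
    | succ j ih =>
      intro h
      rw [← add_assoc, hus (N + j) (by omega) (by omega), ih (by omega)]
      ring
  have hvp : ∀ j, N + j < M → v (N + j) = 3 ^ j * v N := by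
    intro j
    induction j with
    | zero => intro _; simp
    | succ j ih =>
      intro h
      rw [← add_assoc, hvs (N + j) (by omega) (by omega), ih (by omega)]
      ring
  obtain ⟨j, rfl⟩ : ∃ j, M = N + j + 1 := ⟨M - N - 1, by omega⟩
  have e1 := hub (N + j) (by omega) (by omega)
  rw [hup j (by omega), abs_mul, abs_of_pos (by positivity : (0 : ℝ) < 2 ^ j)] at e1
  have e2 := hvb (N + j) (by omega) (by omega)
  rw [hvp j (by omega), abs_mul, abs_of_pos (by positivity : (0 : ℝ) < 3 ^ j)] at e2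
  -- the integer `3 ^ N b - 2 ^ N c`
  have hM' : (2 : ℝ) * 3 ^ N ≤ 2 ^ j := by
    have h6 : (6 : ℝ) ^ N = 2 ^ N * 3 ^ N := by rw [← mul_pow]; norm_num
    rw [h6, pow_add, pow_add] at hM
    have h2 : (0 : ℝ) < 2 ^ N := by positivity
    nlinarith
  have hM3 : (2 : ℝ) * 2 ^ N ≤ 3 ^ j := by
    calc (2 : ℝ) * 2 ^ N ≤ 2 * 3 ^ N := by gcongr; norm_num
      _ ≤ 2 ^ j := hM'
      _ ≤ 3 ^ j := by gcongr; norm_num
  have hz : (3 : ℤ) ^ N * (3 * r N - r (N + 1)) - 2 ^ N * (r (N + 1) - 2 * r N) = 0 := by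
    refine int_zero ?_
    have e3 : (((3 : ℤ) ^ N * (3 * r N - r (N + 1)) - 2 ^ N * (r (N + 1) - 2 * r N) : ℤ) : ℝ) =
        2 ^ N * v N - 3 ^ N * u N := by
      simp only [hu, hv]; push_cast; ring
    rw [e3]
    have a1 : (2 : ℝ) ^ N * |v N| ≤ 3 / 26 := by
      have h0 : 0 ≤ |v N| := abs_nonneg _
      nlinarith
    have a2 : (3 : ℝ) ^ N * |u N| ≤ 4 / 26 := by
      have h0 : 0 ≤ |u N| := abs_nonneg _
      nlinarith
    calc |(2 : ℝ) ^ N * v N - 3 ^ N * u N| ≤ |(2 : ℝ) ^ N * v N| + |3 ^ N * u N| := abs_sub _ _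
      _ = 2 ^ N * |v N| + 3 ^ N * |u N| := by
        rw [abs_mul, abs_mul, abs_of_pos (by positivity : (0 : ℝ) < 2 ^ N),
          abs_of_pos (by positivity : (0 : ℝ) < 3 ^ N)]
      _ < 1 := by linarith
  have hd : (2 : ℤ) ^ N ∣ (3 * r N - r (N + 1)) := by
    have h1 : (2 : ℤ) ^ N ∣ 3 ^ N * (3 * r N - r (N + 1)) :=
      ⟨r (N + 1) - 2 * r N, by linarith⟩
    have h2 : IsCoprime ((2 : ℤ) ^ N) (3 ^ N) := by
      apply IsCoprime.pow
      exact ⟨-1, 1, by norm_num⟩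
    exact h2.dvd_of_dvd_mul_left h1
  obtain ⟨e, he⟩ := hd
  refine ⟨e, ?_⟩
  have h2 : (0 : ℝ) < 2 ^ N := by positivity
  have e5 : x - e = u N / 2 ^ N := by
    have : u N = 2 ^ N * x - 2 ^ N * e := by
      simp only [hu]
      rw [he]
      push_cast
      ring
    rw [this]
    field_simp
  rw [e5, abs_div, abs_of_pos h2]
  have e6 := hub N le_rfl hNM
  gcongr
  linarith

end Pool.Agent.Helper66.Rig
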