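import Pool.Agent.Helper66.Rig.Obs2

namespace Pool.Agent.Helper66.Rig

open MeasureTheory Filter Topology

theorem integrable_pow {σ : Measure ℂ} (h : ContProb σ) (n : ℕ) :
    Integrable (fun z : ℂ => z ^ n) σ := by
  obtain ⟨hp, hu, -⟩ := h
  refine Integrable.of_bound (C := 1) (by fun_prop) ?_
  filter_upwards [hu] with z hz
  rw [norm_pow, hz, one_pow]

/-- The sum over any window `[N, C N]` with `C > log 6 / log 2` is bounded below. -/
theorem obstruction {σ : Measure ℂ} (h : ContProb σ) {C : ℝ} (hC : Real.log 6 / Real.log 2 < C) :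
    ∀ᶠ N : ℕ in atTop, (1 / 25 : ℝ) ≤
      ∑ k ∈ Finset.Icc N ⌊C * N⌋₊, (1 - (fc σ (2 ^ k + 3 ^ k)).re) := by
  have hint := integrable_pow h
  obtain ⟨hp, hu, hna⟩ := h
  set G : ℕ → Set ℂ := fun N => {z | ∃ k ∈ Finset.Icc N ⌊C * N⌋₊,
    (8 / 169 : ℝ) ≤ 1 - (z ^ (2 ^ k + 3 ^ k)).re} with hG
  have hGm : ∀ N, MeasurableSet (G N) := by
    intro N
    have : G N = ⋃ k ∈ Finset.Icc N ⌊C * N⌋₊,
        {z : ℂ | (8 / 169 : ℝ) ≤ 1 - (z ^ (2 ^ k + 3 ^ k)).re} := by
      ext z
      simp [hG]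
    rw [this]
    refine Finset.measurableSet_biUnion _ fun k _ => ?_
    refine (isClosed_le continuous_const ?_).measurableSet
    exact continuous_const.sub (Complex.continuous_re.comp (continuous_pow _))
  set H : ℕ → Set ℂ := fun N => ⋂ M ∈ Set.Ici N, G M with hH
  have hHmono : Monotone H := by
    intro a b hab
    exact Set.biInter_subset_biInter_left (Set.Ici_subset_Ici.2 hab)
  have hlim := tendsto_measure_iUnion_atTop (μ := σ) hHmono
  have hfull : σ (⋃ N, H N) = 1 := by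
    rw [← measure_univ (μ := σ)]
    refine measure_congr ?_
    have h1 : ∀ᵐ z ∂σ, z ≠ 1 := by
      rw [ae_iff]
      simpa using hna 1
    filter_upwards [hu, h1] with z hz hz1
    have hev := pointwise hC z hz hz1
    obtain ⟨N, hN⟩ := eventually_atTop.1 hev
    refine propext ⟨fun _ => trivial, fun _ => ?_⟩
    refine Set.mem_iUnion.2 ⟨N, Set.mem_iInter₂.2 fun M hM => hN M hM⟩
  rw [hfull] at hlim
  have hev : ∀ᶠ N in atTop, ENNReal.ofReal (6 / 7) < σ (H N) :=
    hlim.eventually_const_lt (by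
      rw [← ENNReal.ofReal_one]
      exact (ENNReal.ofReal_lt_ofReal_iff (by norm_num)).2 (by norm_num))
  filter_upwards [hev] with N hN
  have hGN : ENNReal.ofReal (6 / 7) < σ (G N) :=
    hN.trans_le (measure_mono (Set.biInter_subset_of_mem (Set.mem_Ici.2 le_rfl)))
  have hGr : (6 / 7 : ℝ) < σ.real (G N) := by
    rw [Measure.real, ← ENNReal.ofReal_lt_iff_lt_toReal (by norm_num) (measure_ne_top _ _)]
    exact hGN
  have hre : ∀ n : ℕ, 1 - (fc σ n).re = ∫ z, (1 - (z ^ n).re) ∂σ := by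
    intro n
    have h2 : (fc σ n).re = ∫ z, (z ^ n).re ∂σ := by
      have := integral_re (hint n)
      simpa [fc] using this.symm
    have hre' : Integrable (fun z : ℂ => (z ^ n).re) σ := (hint n).re
    rw [h2, integral_sub (integrable_const _) hre']
    simp
  have hint' : ∀ n : ℕ, Integrable (fun z : ℂ => 1 - (z ^ n).re) σ := fun n =>
    (integrable_const _).sub (hint n).re
  have hsum : ∑ k ∈ Finset.Icc N ⌊C * N⌋₊, (1 - (fc σ (2 ^ k + 3 ^ k)).re) =
      ∫ z, ∑ k ∈ Finset.Icc N ⌊C * N⌋₊, (1 - (z ^ (2 ^ k + 3 ^ k)).re) ∂σ := by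
    rw [integral_finsetSum _ fun k _ => hint' _]
    exact Finset.sum_congr rfl fun k _ => hre _
  rw [hsum]
  have hnn : ∀ᵐ z ∂σ, ∀ n : ℕ, 0 ≤ 1 - (z ^ n).re := by
    filter_upwards [hu] with z hz n
    have : (z ^ n).re ≤ ‖z ^ n‖ := Complex.re_le_norm _
    rw [norm_pow, hz, one_pow] at this
    linarith
  calc (1 / 25 : ℝ) ≤ 8 / 169 * σ.real (G N) := by linarith
    _ = ∫ z, (G N).indicator (fun _ => (8 / 169 : ℝ)) z ∂σ := by
      rw [integral_indicator_const _ (hGm N), smul_eq_mul, mul_comm]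
    _ ≤ _ := by
      refine integral_mono_ae ((integrable_const _).indicator (hGm N))
        (integrable_finsetSum _ fun k _ => hint' _) ?_
      filter_upwards [hnn] with z hz
      by_cases hzG : z ∈ G N
      · rw [Set.indicator_of_mem hzG]
        obtain ⟨k, hk, hk2⟩ := hzG
        exact hk2.trans (Finset.single_le_sum
          (f := fun k => 1 - (z ^ (2 ^ k + 3 ^ k)).re) (fun i _ => hz _) hk)
      · rw [Set.indicator_of_notMem hzG]
        exact Finset.sum_nonneg fun i _ => hz _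

end Pool.Agent.Helper66.Rig
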