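import Pool.Agent.Helper66.Rig.Scheme

namespace Pool.Agent.Helper66.Rig

open MeasureTheory Filter Topology

theorem exp_inj {x y : ℝ} (hx : 0 ≤ x) (hx1 : x < 1) (hy : 0 ≤ y) (hy1 : y < 1)
    (h : Complex.exp (2 * Real.pi * x * Complex.I) = Complex.exp (2 * Real.pi * y * Complex.I)) :
    x = y := by
  rw [Complex.exp_eq_exp_iff_exists_int] at h
  obtain ⟨n, hn⟩ := h
  have hpi : (Real.pi : ℂ) ≠ 0 := by exact_mod_cast Real.pi_ne_zero
  have e1 : (2 * Real.pi * Complex.I) * ((x : ℂ) - y - n) = 0 := by
    linear_combination hn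
  rcases mul_eq_zero.1 e1 with e2 | e2
  · exfalso
    simp [hpi] at e2
  · have e3 : x - y = n := by
      have : ((x - y : ℝ) : ℂ) = ((n : ℝ) : ℂ) := by
        push_cast
        linear_combination e2
      exact_mod_cast this
    have e4 : n = 0 := by
      have h1 : (-1 : ℝ) < n := by rw [← e3]; linarith
      have h2 : (n : ℝ) < 1 := by rw [← e3]; linarith
      have h1' : -1 < n := by exact_mod_cast h1
      have h2' : n < 1 := by exact_mod_cast h2
      omega
    rw [e4] at e3
    push_cast at e3
    linarith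

/-- the measure on the circle attached to a function `f`. -/
noncomputable def push (f : ℝ → ℝ) : Measure ℂ :=
  (volume.restrict (Set.Ico (0 : ℝ) 1)).map fun t => Complex.exp (2 * Real.pi * f t * Complex.I)

theorem push_meas {f : ℝ → ℝ} (hf : Measurable f) :
    Measurable fun t => Complex.exp (2 * Real.pi * f t * Complex.I) := by
  fun_prop

theorem push_cont {f : ℝ → ℝ} (hf : Measurable f) (hinj : Set.InjOn f (Set.Ico 0 1))
    (hb : ∀ t, 0 ≤ f t ∧ f t < 1) : ContProb (push f) := by
  have hm := push_meas hf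
  have hprob : IsProbabilityMeasure (volume.restrict (Set.Ico (0 : ℝ) 1)) := by
    constructor
    simp
  refine ⟨Measure.isProbabilityMeasure_map hm.aemeasurable, ?_, ?_⟩
  · rw [push, ae_map_iff hm.aemeasurable]
    · refine Eventually.of_forall fun t => ?_
      have : (2 * Real.pi * f t * Complex.I : ℂ) = ((2 * Real.pi * f t : ℝ) : ℂ) * Complex.I := by
        push_cast; ring
      rw [this, Complex.norm_exp_ofReal_mul_I]
    · exact (isClosed_eq continuous_norm continuous_const).measurableSet
  · intro z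
    rw [push, Measure.map_apply hm (measurableSet_singleton z),
      Measure.restrict_apply (hm (measurableSet_singleton z))]
    refine Set.Subsingleton.measure_zero ?_ _
    rintro t ⟨ht1, ht2⟩ t' ⟨ht1', ht2'⟩
    apply hinj ht2 ht2'
    refine exp_inj (hb t).1 (hb t).2 (hb t').1 (hb t').2 ?_
    rw [Set.mem_preimage, Set.mem_singleton_iff] at ht1 ht1'
    rw [ht1, ht1']

theorem push_fc {f : ℝ → ℝ} (hf : Measurable f) (n : ℕ) :
    fc (push f) n = ∫ t in Set.Ico (0 : ℝ) 1, Complex.exp (2 * Real.pi * (n * f t) * Complex.I) := by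
  rw [fc, push, integral_map (push_meas hf).aemeasurable (by fun_prop)]
  refine integral_congr_ae (Eventually.of_forall fun t => ?_)
  show Complex.exp _ ^ n = _
  rw [← Complex.exp_nat_mul]
  congr 1
  ring

theorem push_close {f : ℝ → ℝ} (hf : Measurable f) (n : ℕ) {δ : ℝ}
    (h : ∀ t, ∃ m : ℤ, |n * f t - m| ≤ δ) : ‖1 - fc (push f) n‖ ≤ 2 * Real.pi * δ := by
  have hprob : IsProbabilityMeasure (volume.restrict (Set.Ico (0 : ℝ) 1)) := by
    constructor
    simp
  have hint : Integrable (fun t : ℝ => Complex.exp (2 * Real.pi * (n * f t) * Complex.I))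
      (volume.restrict (Set.Ico (0 : ℝ) 1)) := by
    refine Integrable.of_bound (C := 1) (by fun_prop) (Eventually.of_forall fun t => ?_)
    have : (2 * Real.pi * (n * f t) * Complex.I : ℂ) =
        ((2 * Real.pi * (n * f t) : ℝ) : ℂ) * Complex.I := by
      push_cast; ring
    rw [this, Complex.norm_exp_ofReal_mul_I]
  have e1 : 1 - fc (push f) n = ∫ t in Set.Ico (0 : ℝ) 1,
      (1 - Complex.exp (2 * Real.pi * (n * f t) * Complex.I)) := by
    rw [push_fc hf, integral_sub (integrable_const _) hint]
    simp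
  rw [e1]
  refine (norm_integral_le_of_norm_le_const (C := 2 * Real.pi * δ)
    (Eventually.of_forall fun t => ?_)).trans ?_
  · obtain ⟨m, hm⟩ := h t
    have e2 : Complex.exp (2 * Real.pi * (n * f t) * Complex.I) =
        Complex.exp (((2 * Real.pi * (n * f t - m) : ℝ) : ℂ) * Complex.I) := by
      rw [Complex.exp_eq_exp_iff_exists_int]
      exact ⟨m, by push_cast; ring⟩
    rw [e2, norm_sub_rev]
    have e3 := Real.norm_exp_I_mul_ofReal_sub_one_le (x := 2 * Real.pi * (n * f t - m))
    rw [mul_comm Complex.I] at e3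
    refine e3.trans ?_
    rw [Real.norm_eq_abs, abs_mul, abs_of_pos (by positivity : (0 : ℝ) < 2 * Real.pi)]
    gcongr
  · simp

end Pool.Agent.Helper66.Rig
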