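import Pool.Agent.Helper66.Rig.Defs

namespace Pool.Agent.Helper66.Rig

open MeasureTheory Filter Topology

theorem floor_half (s : ℝ) : ⌊2 * s⌋ / 2 = ⌊s⌋ := by
  have h1 := Int.floor_le s
  have h2 := Int.lt_floor_add_one s
  have h3 : 2 * ⌊s⌋ ≤ ⌊2 * s⌋ := by
    rw [Int.le_floor]; push_cast; linarith
  have h4 : ⌊2 * s⌋ < 2 * ⌊s⌋ + 2 := by
    rw [Int.floor_lt]; push_cast; linarith
  omega

theorem floors_sep {t t' : ℝ} (h : t ≠ t') : ∃ j : ℕ, ⌊2 ^ j * t⌋ ≠ ⌊2 ^ j * t'⌋ := by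
  by_contra hcon
  push Not at hcon
  have hpos : 0 < |t - t'| := abs_pos.2 (sub_ne_zero.2 h)
  obtain ⟨j, hj⟩ := exists_pow_lt_of_lt_one hpos (show (1 / 2 : ℝ) < 1 by norm_num)
  have h1 : |2 ^ j * t - 2 ^ j * t'| < 1 := Int.abs_sub_lt_one_of_floor_eq_floor (hcon j)
  rw [← mul_sub, abs_mul, abs_of_pos (by positivity : (0 : ℝ) < 2 ^ j)] at h1
  have h2 : (1 : ℝ) < 2 ^ j * |t - t'| := by
    have : (1 : ℝ) = 2 ^ j * (1 / 2) ^ j := by rw [← mul_pow]; norm_num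
    calc (1 : ℝ) = 2 ^ j * (1 / 2) ^ j := this
      _ < _ := by gcongr
  linarith

/-- Cantor scheme: nested intervals `[a, a + ℓ j]` at stage `j`, each of which contains two
disjoint intervals of stage `j + 1` all of whose points satisfy `P j`. -/
theorem scheme (ℓ : ℕ → ℝ) (P : ℕ → ℝ → Prop) (hℓ : ∀ j, 0 ≤ ℓ j)
    (h : ∀ j, ∀ a : ℝ, 0 ≤ a → ∃ a0 a1 : ℝ, a ≤ a0 ∧ a0 + ℓ (j + 1) < a1 ∧
      a1 + ℓ (j + 1) ≤ a + ℓ j ∧ (∀ x, a0 ≤ x → x ≤ a0 + ℓ (j + 1) → P j x) ∧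
      (∀ x, a1 ≤ x → x ≤ a1 + ℓ (j + 1) → P j x)) :
    ∃ f : ℝ → ℝ, Measurable f ∧ Set.InjOn f (Set.Ico 0 1) ∧
      ∀ t, 0 ≤ f t ∧ f t ≤ ℓ 0 ∧ ∀ j, P j (f t) := by
  choose! a0 a1 h1 h2 h3 h4 h5 using h
  let Y : ℕ → ℤ → ℝ := fun j => Nat.rec (fun _ => 0)
    (fun j F m => if m % 2 = 0 then a0 j (F (m / 2)) else a1 j (F (m / 2))) j
  have Y0 : ∀ m, Y 0 m = 0 := fun m => rfl
  have YS : ∀ j m, Y (j + 1) m =
      if m % 2 = 0 then a0 j (Y j (m / 2)) else a1 j (Y j (m / 2)) := fun j m => rfl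
  have Ynn : ∀ j m, 0 ≤ Y j m := by
    intro j
    induction j with
    | zero => intro m; rw [Y0]
    | succ j ih =>
      intro m
      rw [YS]
      have e1 := h1 j _ (ih (m / 2))
      have e2 := h2 j _ (ih (m / 2))
      have e3 := ih (m / 2)
      have e4 := hℓ (j + 1)
      split_ifs <;> linarith
  let y : ℕ → ℝ → ℝ := fun j t => Y j ⌊2 ^ j * t⌋
  have ystep : ∀ j t, y (j + 1) t = a0 j (y j t) ∨ y (j + 1) t = a1 j (y j t) := by
    intro j t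
    have e : ⌊2 ^ (j + 1) * t⌋ / 2 = ⌊2 ^ j * t⌋ := by
      rw [pow_succ, mul_comm ((2 : ℝ) ^ j) 2, mul_assoc]
      exact floor_half _
    show Y (j + 1) ⌊2 ^ (j + 1) * t⌋ = a0 j (Y j ⌊2 ^ j * t⌋) ∨
      Y (j + 1) ⌊2 ^ (j + 1) * t⌋ = a1 j (Y j ⌊2 ^ j * t⌋)
    rw [YS, e]
    split_ifs
    · exact Or.inl rfl
    · exact Or.inr rfl
  have ynn : ∀ j t, 0 ≤ y j t := fun j t => Ynn j _
  have ymono1 : ∀ j t, y j t ≤ y (j + 1) t := by
    intro j t
    have e1 := h1 j _ (ynn j t)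
    have e2 := h2 j _ (ynn j t)
    have e4 := hℓ (j + 1)
    rcases ystep j t with e | e <;> rw [e] <;> linarith
  have yanti1 : ∀ j t, y (j + 1) t + ℓ (j + 1) ≤ y j t + ℓ j := by
    intro j t
    have e2 := h2 j _ (ynn j t)
    have e3 := h3 j _ (ynn j t)
    have e4 := hℓ (j + 1)
    rcases ystep j t with e | e <;> rw [e] <;> linarith
  have ymono : ∀ t, Monotone (fun j => y j t) := fun t => monotone_nat_of_le_succ fun j => ymono1 j t
  have yanti : ∀ t, Antitone (fun j => y j t + ℓ j) :=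
    fun t => antitone_nat_of_succ_le fun j => yanti1 j t
  have ybd : ∀ t i j, y i t ≤ y j t + ℓ j := by
    intro t i j
    rcases le_total i j with hij | hij
    · have := ymono t hij
      have := hℓ j
      dsimp only at *
      linarith
    · have := yanti t hij
      have := hℓ i
      dsimp only at *
      linarith
  have hbdd : ∀ t, BddAbove (Set.range fun j => y j t) := by
    intro t
    refine ⟨y 0 t + ℓ 0, ?_⟩
    rintro _ ⟨i, rfl⟩
    exact ybd t i 0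
  let f : ℝ → ℝ := fun t => ⨆ j, y j t
  have fge : ∀ t j, y j t ≤ f t := fun t j => le_ciSup (hbdd t) j
  have fle : ∀ t j, f t ≤ y j t + ℓ j := fun t j => ciSup_le fun i => ybd t i j
  refine ⟨f, ?_, ?_, ?_⟩
  · refine Measurable.iSup fun j => ?_
    have e1 : Measurable (Y j) := Measurable.of_discrete
    exact e1.comp (Int.measurable_floor.comp (measurable_const_mul _))
  · intro t ht t' ht' hff
    by_contra hne
    have hex := floors_sep hne
    classical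
    obtain ⟨hj1, hj2⟩ := And.intro (Nat.find_spec hex) (fun m hm => Nat.find_min hex (m := m) hm)
    set j := Nat.find hex with hj
    have hj0 : j ≠ 0 := by
      intro h0
      rw [h0] at hj1
      apply hj1
      have e1 : ⌊(2 : ℝ) ^ 0 * t⌋ = 0 := by
        rw [pow_zero, one_mul, Int.floor_eq_zero_iff]; exact ht
      have e2 : ⌊(2 : ℝ) ^ 0 * t'⌋ = 0 := by
        rw [pow_zero, one_mul, Int.floor_eq_zero_iff]; exact ht'
      rw [e1, e2]
    obtain ⟨i, hi⟩ : ∃ i, j = i + 1 := ⟨j - 1, by omega⟩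
    have hi1 : ⌊2 ^ i * t⌋ = ⌊2 ^ i * t'⌋ := by
      by_contra hc
      exact hj2 i (by omega) hc
    rw [hi] at hj1
    have e1 : ⌊2 ^ (i + 1) * t⌋ / 2 = ⌊2 ^ i * t⌋ := by
      rw [pow_succ, mul_comm ((2 : ℝ) ^ i) 2, mul_assoc]; exact floor_half _
    have e2 : ⌊2 ^ (i + 1) * t'⌋ / 2 = ⌊2 ^ i * t'⌋ := by
      rw [pow_succ, mul_comm ((2 : ℝ) ^ i) 2, mul_assoc]; exact floor_half _
    have g1 := fge t (i + 1)
    have g2 := fle t (i + 1)
    have g3 := fge t' (i + 1)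
    have g4 := fle t' (i + 1)
    have yt : y (i + 1) t = if ⌊2 ^ (i + 1) * t⌋ % 2 = 0 then a0 i (Y i ⌊2 ^ i * t⌋)
        else a1 i (Y i ⌊2 ^ i * t⌋) := by
      show Y (i + 1) ⌊2 ^ (i + 1) * t⌋ = _
      rw [YS, e1]
    have yt' : y (i + 1) t' = if ⌊2 ^ (i + 1) * t'⌋ % 2 = 0 then a0 i (Y i ⌊2 ^ i * t⌋)
        else a1 i (Y i ⌊2 ^ i * t⌋) := by
      show Y (i + 1) ⌊2 ^ (i + 1) * t'⌋ = _
      rw [YS, e2, ← hi1]
    have sep := h2 i _ (Ynn i ⌊2 ^ i * t⌋)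
    rw [yt] at g1 g2
    rw [yt'] at g3 g4
    rw [hff] at g1 g2
    by_cases c1 : ⌊2 ^ (i + 1) * t⌋ % 2 = 0
    · have c2 : ¬ ⌊2 ^ (i + 1) * t'⌋ % 2 = 0 := by omega
      rw [if_pos c1] at g1 g2
      rw [if_neg c2] at g3 g4
      linarith
    · have c2 : ⌊2 ^ (i + 1) * t'⌋ % 2 = 0 := by omega
      rw [if_neg c1] at g1 g2
      rw [if_pos c2] at g3 g4
      linarith
  · intro t
    refine ⟨(ynn 0 t).trans (fge t 0), ?_, ?_⟩
    · have := fle t 0
      have e : y 0 t = 0 := Y0 ⌊2 ^ 0 * t⌋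
      rw [e, zero_add] at this
      exact this
    · intro j
      have g1 := fge t (j + 1)
      have g2 := fle t (j + 1)
      rcases ystep j t with e | e
      · rw [e] at g1 g2
        exact h4 j _ (ynn j t) _ g1 g2
      · rw [e] at g1 g2
        exact h5 j _ (ynn j t) _ g1 g2

end Pool.Agent.Helper66.Rig
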