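import Pool.Agent.Helper66.Rig.Count

namespace Pool.Agent.Helper66.Rig

open MeasureTheory Filter Topology

/-- Infinitely many scales `N` are good: the multiples `p * 3 ^ N`, `1 ≤ p ≤ P N`, stay at distance
more than `K` from the multiples of `2 ^ N`. -/
theorem good_scales (K : ℝ) (P : ℕ → ℝ) (hK : 0 < K)
    (h : ∀ᶠ N : ℕ in atTop, P N < 2 ^ N ∧ K * (P N + 3 * P (N + 1)) < 2 ^ N) :
    ∃ᶠ N : ℕ in atTop, ∀ p : ℕ, 1 ≤ p → (p : ℝ) ≤ P N → ∀ r : ℤ,
      K < |(3 : ℝ) ^ N * p - 2 ^ N * r| := by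
  by_contra hcon
  rw [not_frequently] at hcon
  obtain ⟨N1, hN1⟩ := eventually_atTop.1 (hcon.and h)
  have hbad : ∀ i : ℕ, ∃ p : ℕ, ∃ r : ℤ, 1 ≤ p ∧ (p : ℝ) ≤ P (N1 + i) ∧
      |(3 : ℝ) ^ (N1 + i) * p - 2 ^ (N1 + i) * r| ≤ K := by
    intro i
    have h1 := (hN1 (N1 + i) (by omega)).1
    push Not at h1
    obtain ⟨p, hp1, hp2, r, hr⟩ := h1
    exact ⟨p, r, hp1, hp2, hr⟩
  choose p r hp1 hp2 hq using hbad
  let q : ℕ → ℤ := fun i => 3 ^ (N1 + i) * p i - 2 ^ (N1 + i) * r i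
  have hqr : ∀ i, ((q i : ℤ) : ℝ) = (3 : ℝ) ^ (N1 + i) * p i - 2 ^ (N1 + i) * r i := by
    intro i; simp only [q]; push_cast; ring
  have hqK : ∀ i, |(q i : ℝ)| ≤ K := fun i => by rw [hqr]; exact hq i
  have hPpos : ∀ i, (p i : ℝ) < 2 ^ (N1 + i) := fun i =>
    (hp2 i).trans_lt (hN1 (N1 + i) (by omega)).2.1
  have hq0 : ∀ i, q i ≠ 0 := by
    intro i h0
    have h1 : (2 : ℤ) ^ (N1 + i) ∣ 3 ^ (N1 + i) * p i := ⟨r i, by simp only [q] at h0; linarith⟩
    have h2 : IsCoprime ((2 : ℤ) ^ (N1 + i)) (3 ^ (N1 + i)) := IsCoprime.pow ⟨-1, 1, by norm_num⟩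
    have h3 := h2.dvd_of_dvd_mul_left h1
    have h4 := Int.le_of_dvd (by have := hp1 i; omega) h3
    have h5 : (2 : ℝ) ^ (N1 + i) ≤ p i := by exact_mod_cast h4
    linarith [hPpos i]
  have hrel : ∀ i, q (i + 1) * p i = 3 * q i * p (i + 1) := by
    intro i
    have hd : (2 : ℤ) ^ (N1 + i) ∣ q (i + 1) * p i - 3 * q i * p (i + 1) := by
      refine ⟨3 * r i * p (i + 1) - 2 * r (i + 1) * p i, ?_⟩
      simp only [q]
      rw [show N1 + (i + 1) = (N1 + i) + 1 by ring, pow_succ, pow_succ]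
      ring
    have hlt : |q (i + 1) * p i - 3 * q i * p (i + 1)| < 2 ^ (N1 + i) := by
      have hh := (hN1 (N1 + i) (by omega)).2.2
      have e1 := hqK i
      have e2 := hqK (i + 1)
      have e3 := hp2 i
      have e4 := hp2 (i + 1)
      have a1 : |(q (i + 1) : ℝ) * p i| ≤ K * P (N1 + i) := by
        rw [abs_mul, Nat.abs_cast]
        gcongr
      have a2 : |3 * (q i : ℝ) * p (i + 1)| ≤ 3 * K * P (N1 + (i + 1)) := by
        rw [abs_mul, abs_mul, Nat.abs_cast, abs_of_pos (by norm_num : (0 : ℝ) < 3)]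
        gcongr
      have a3 : |(q (i + 1) : ℝ) * p i - 3 * q i * p (i + 1)| < 2 ^ (N1 + i) := by
        refine (abs_sub _ _).trans_lt ?_
        have e : N1 + i + 1 = N1 + (i + 1) := by ring
        rw [e] at hh
        linarith
      exact_mod_cast a3
    have h0 : q (i + 1) * p i - 3 * q i * p (i + 1) = 0 :=
      Int.eq_zero_of_abs_lt_dvd hd hlt
    linarith
  have hind : ∀ i, 3 ^ i * |q 0| * p i = |q i| * p 0 := by
    intro i
    induction i with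
    | zero => simp
    | succ i ih =>
      have h1 : |q (i + 1)| * p i = 3 * |q i| * p (i + 1) := by
        have := congrArg abs (hrel i)
        rwa [abs_mul, abs_mul, abs_mul, Nat.abs_cast, Nat.abs_cast, abs_of_pos
          (by norm_num : (0 : ℤ) < 3)] at this
      have h2 : |q i| ≠ 0 := abs_ne_zero.2 (hq0 i)
      apply mul_right_cancel₀ h2
      calc 3 ^ (i + 1) * |q 0| * (p (i + 1) : ℤ) * |q i|
          = 3 ^ i * |q 0| * (3 * |q i| * p (i + 1)) := by ring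
        _ = 3 ^ i * |q 0| * (|q (i + 1)| * p i) := by rw [h1]
        _ = |q (i + 1)| * (3 ^ i * |q 0| * p i) := by ring
        _ = |q (i + 1)| * (|q i| * p 0) := by rw [ih]
        _ = |q (i + 1)| * p 0 * |q i| := by ring
  obtain ⟨i, hi⟩ := pow_unbounded_of_one_lt (K * p 0) (by norm_num : (1 : ℝ) < 3)
  have h1 : (3 : ℝ) ^ i ≤ 3 ^ i * |(q 0 : ℝ)| * p i := by
    have g1 : (1 : ℝ) ≤ |(q 0 : ℝ)| := by
      have : 1 ≤ |q 0| := Int.one_le_abs (hq0 0)
      exact_mod_cast this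
    have g2 : (1 : ℝ) ≤ p i := by exact_mod_cast hp1 i
    have g3 : (0 : ℝ) < 3 ^ i := by positivity
    have g4 : (1 : ℝ) ≤ |(q 0 : ℝ)| * p i := by nlinarith
    nlinarith
  have h2 : (3 : ℝ) ^ i * |(q 0 : ℝ)| * p i = |(q i : ℝ)| * p 0 := by exact_mod_cast hind i
  have h3 : |(q i : ℝ)| * p 0 ≤ K * p 0 := by
    gcongr
    exact hqK i
  linarith

/-- Covering lemma at a good scale. -/
theorem cover (N : ℕ) (h η : ℝ) (hh : 0 < h) (hη : 0 < η)
    (hgood : ∀ p : ℕ, 1 ≤ p → (p : ℝ) ≤ 2 / η → ∀ r : ℤ, 4 / h < |(3 : ℝ) ^ N * p - 2 ^ N * r|)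
    (hbig : 4 ≤ h * 2 ^ N) (hbig2 : 4 / (h * 2 ^ N) ≤ η / 2) (a : ℝ) :
    ∃ b c : ℤ, a ≤ b / 2 ^ N ∧ (b : ℝ) / 2 ^ N ≤ a + h ∧ |(b : ℝ) / 2 ^ N - c / 3 ^ N| ≤ η / 3 ^ N := by
  have p2 : (0 : ℝ) < 2 ^ N := by positivity
  have p3 : (0 : ℝ) < 3 ^ N := by positivity
  set ξ : ℝ := 3 ^ N / 2 ^ N with hξ
  set Q : ℕ := ⌊h * 2 ^ N / 4⌋₊ with hQ
  have hQ1 : 1 ≤ Q := by
    rw [hQ, Nat.one_le_floor_iff]
    linarith
  have hQle : (Q : ℝ) ≤ h * 2 ^ N / 4 := Nat.floor_le (by positivity)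
  have hQlt : h * 2 ^ N / 4 < Q + 1 := Nat.lt_floor_add_one _
  obtain ⟨q, hq1, hq2⟩ := Real.exists_rat_abs_sub_le_and_den_le ξ (n := Q) hQ1
  have hden : (0 : ℝ) < q.den := by exact_mod_cast q.den_pos
  have hqq : (q : ℝ) = q.num / q.den := by exact_mod_cast (Rat.num_div_den q).symm
  have hQ1' : (0 : ℝ) < (Q : ℝ) + 1 := by positivity
  -- the denominator is large
  have hdist : |(3 : ℝ) ^ N * q.den - 2 ^ N * q.num| ≤ 4 / h := by
    have e1 : (3 : ℝ) ^ N * q.den - 2 ^ N * q.num = 2 ^ N * q.den * (ξ - q) := by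
      rw [hqq, hξ]; field_simp
    rw [e1, abs_mul, abs_of_pos (by positivity : (0 : ℝ) < 2 ^ N * q.den)]
    calc (2 : ℝ) ^ N * q.den * |ξ - q| ≤ 2 ^ N * q.den * (1 / ((Q + 1) * q.den)) := by gcongr
      _ = 2 ^ N / (Q + 1) := by field_simp
      _ ≤ 4 / h := by
        rw [div_le_div_iff₀ hQ1' hh]
        nlinarith
  have hbigden : 2 / η < q.den := by
    by_contra hc
    have := hgood q.den (by have := q.den_pos; omega) (not_lt.1 hc) q.num
    linarith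
  -- solve the congruence
  have hcop : IsCoprime q.num (q.den : ℤ) := by
    rw [Int.isCoprime_iff_gcd_eq_one]
    exact q.reduced
  obtain ⟨u, v, huv⟩ := hcop
  set b0 : ℤ := ⌈a * 2 ^ N⌉ with hb0
  set s : ℤ := ⌊q.den * (b0 * ξ)⌋ with hs
  have hdz : (0 : ℤ) < q.den := by exact_mod_cast q.den_pos
  set i : ℤ := (-s * u) % q.den with hi
  have hi0 : 0 ≤ i := Int.emod_nonneg _ hdz.ne'
  have hi1 : i < q.den := Int.emod_lt_of_pos _ hdz
  obtain ⟨w, hw⟩ : ∃ w : ℤ, i * q.num = -s + q.den * w := by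
    refine ⟨s * v - (-s * u) / q.den * q.num, ?_⟩
    have e1 : i = -s * u - q.den * ((-s * u) / q.den) := by
      rw [hi, Int.emod_def]
    have e2 : s * (u * q.num + v * q.den) = s := by rw [huv, mul_one]
    rw [e1]
    linear_combination (-1 : ℤ) * e2
  have b1 := Int.le_ceil (a * 2 ^ N)
  have b2 := Int.ceil_lt_add_one (a * 2 ^ N)
  rw [← hb0] at b1 b2
  have hir0 : (0 : ℝ) ≤ i := by exact_mod_cast hi0
  have hir1 : (i : ℝ) ≤ q.den := by exact_mod_cast hi1.le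
  have hqQ : (q.den : ℝ) ≤ Q := by exact_mod_cast hq2
  refine ⟨b0 + i, w, ?_, ?_, ?_⟩
  · rw [le_div_iff₀ p2]
    push_cast
    linarith
  · rw [div_le_iff₀ p2]
    push_cast
    nlinarith
  · have s1 := Int.floor_le (q.den * (b0 * ξ))
    have s2 := Int.lt_floor_add_one (q.den * (b0 * ξ))
    rw [← hs] at s1 s2
    have hwr : (i : ℝ) * q.num = -s + q.den * w := by exact_mod_cast hw
    have e1 : ((b0 + i : ℤ) : ℝ) * ξ - w =
        (q.den * (b0 * ξ) - s) / q.den + i * (ξ - q) := by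
      rw [hqq]
      push_cast
      field_simp
      linear_combination hwr
    have e2 : |((b0 + i : ℤ) : ℝ) * ξ - w| ≤ η := by
      rw [e1]
      refine (abs_add_le _ _).trans ?_
      have f1 : |(q.den * (b0 * ξ) - s) / q.den| ≤ η / 2 := by
        rw [abs_div, abs_of_pos hden, abs_of_nonneg (by linarith), div_le_iff₀ hden]
        have : 2 / η * (η / 2) = 1 := by field_simp
        nlinarith
      have f2 : |(i : ℝ) * (ξ - q)| ≤ η / 2 := by
        rw [abs_mul, abs_of_nonneg hir0]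
        calc (i : ℝ) * |ξ - q| ≤ q.den * (1 / ((Q + 1) * q.den)) := by gcongr
          _ = 1 / (Q + 1) := by field_simp
          _ ≤ 1 / (h * 2 ^ N / 4) := by gcongr
          _ = 4 / (h * 2 ^ N) := by field_simp
          _ ≤ η / 2 := hbig2
      linarith
    have e3 : ((b0 + i : ℤ) : ℝ) / 2 ^ N - w / 3 ^ N = (((b0 + i : ℤ) : ℝ) * ξ - w) / 3 ^ N := by
      rw [hξ]
      field_simp
    rw [e3, abs_div, abs_of_pos p3]
    gcongr

end Pool.Agent.Helper66.Rig
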