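import Pool.Agent.Helper66.Rig.Win

namespace Pool.Agent.Helper66.Rig

open MeasureTheory Filter Topology

theorem u_tendsto {C : ℝ} (hC : C < 1 + lam) :
    Tendsto (fun N : ℕ => (2 : ℝ) ^ ⌊C * N⌋₊ / 6 ^ N) atTop (𝓝 0) := by
  -- `2 ^ ⌊C N⌋ ≤ exp (max C 0 N log 2)`
  set D := max C 0 with hD
  have hl := lam_pos
  have hD1 : D < 1 + lam := max_lt hC (by linarith)
  have hD0 : 0 ≤ D := le_max_right _ _
  set ρ := Real.exp (D * Real.log 2 - Real.log 6) with hρ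
  have hρ1 : ρ < 1 := by
    rw [hρ, Real.exp_lt_one_iff]
    rw [lam_one, lt_div_iff₀ log2_pos] at hD1
    linarith
  have ht := tendsto_pow_atTop_nhds_zero_of_lt_one (Real.exp_pos _).le hρ1
  refine squeeze_zero (fun N => by positivity) (fun N => ?_) ht
  have h1 : (⌊C * N⌋₊ : ℝ) ≤ D * N := by
    calc (⌊C * N⌋₊ : ℝ) ≤ ⌊D * N⌋₊ := by
          exact_mod_cast Nat.floor_le_floor (by gcongr; exact le_max_left _ _)
      _ ≤ D * N := Nat.floor_le (by positivity)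
  have h2 : (2 : ℝ) ^ ⌊C * N⌋₊ ≤ Real.exp (D * N * Real.log 2) := by
    rw [← Real.exp_log (by positivity : (0 : ℝ) < 2 ^ ⌊C * N⌋₊), Real.log_pow]
    apply Real.exp_le_exp.2
    gcongr
  have h3 : (6 : ℝ) ^ N = Real.exp (N * Real.log 6) := by
    rw [← Real.log_pow, Real.exp_log (by positivity)]
  have h4 : ρ ^ N = Real.exp (D * N * Real.log 2) / Real.exp (N * Real.log 6) := by
    rw [hρ, ← Real.exp_nat_mul, ← Real.exp_sub]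
    congr 1
    ring
  rw [h4, h3]
  gcongr

/-- One stage of the construction of long windows. -/
theorem stageC (ℓ ε C : ℝ) (n0 : ℕ) (hℓ : 0 < ℓ) (hε : 0 < ε) (hC1 : 1 ≤ C) (hC : C < 1 + lam) :
    ∃ N : ℕ, n0 ≤ N ∧ ∃ ℓ' : ℝ, 0 < ℓ' ∧ ∀ a : ℝ, ∃ a0 a1 : ℝ, a ≤ a0 ∧ a0 + ℓ' < a1 ∧
      a1 + ℓ' ≤ a + ℓ ∧
      (∀ x, a0 ≤ x → x ≤ a0 + ℓ' → ∀ k : ℕ, N ≤ k → k ≤ ⌊C * N⌋₊ →
        ∃ m : ℤ, |((2 : ℝ) ^ k + 3 ^ k) * x - m| ≤ ε * (2 ^ k / 2 ^ ⌊C * N⌋₊)) ∧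
      (∀ x, a1 ≤ x → x ≤ a1 + ℓ' → ∀ k : ℕ, N ≤ k → k ≤ ⌊C * N⌋₊ →
        ∃ m : ℤ, |((2 : ℝ) ^ k + 3 ^ k) * x - m| ≤ ε * (2 ^ k / 2 ^ ⌊C * N⌋₊)) := by
  set h : ℝ := ℓ / 8 with hh
  have hhpos : 0 < h := by positivity
  set K : ℝ := 4 / h with hK
  have hKpos : 0 < K := by positivity
  set T : ℕ → ℕ := fun N => ⌊C * N⌋₊ with hT
  set P : ℕ → ℝ := fun N => 8 / ε * (2 ^ T N / 3 ^ N) with hP
  have hu := u_tendsto hC
  have hu1 : Tendsto (fun N : ℕ => (2 : ℝ) ^ ⌊C * ((N + 1 : ℕ) : ℝ)⌋₊ / 6 ^ (N + 1)) atTop (𝓝 0) :=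
    hu.comp (tendsto_add_atTop_nat 1)
  have ev1 : ∀ᶠ N : ℕ in atTop, P N < 2 ^ N ∧ K * (P N + 3 * P (N + 1)) < 2 ^ N := by
    have t1 : Tendsto (fun N : ℕ => 8 / ε * ((2 : ℝ) ^ ⌊C * N⌋₊ / 6 ^ N)) atTop (𝓝 (8 / ε * 0)) :=
      hu.const_mul _
    have t2 : Tendsto (fun N : ℕ => K * (8 / ε * ((2 : ℝ) ^ ⌊C * N⌋₊ / 6 ^ N) +
        48 / ε * ((2 : ℝ) ^ ⌊C * ((N + 1 : ℕ) : ℝ)⌋₊ / 6 ^ (N + 1)))) atTop
        (𝓝 (K * (8 / ε * 0 + 48 / ε * 0))) :=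
      ((hu.const_mul _).add (hu1.const_mul _)).const_mul _
    rw [mul_zero] at t1
    rw [mul_zero, mul_zero, add_zero, mul_zero] at t2
    filter_upwards [t1.eventually_lt_const zero_lt_one, t2.eventually_lt_const zero_lt_one]
      with N h1 h2
    have p2 : (0 : ℝ) < 2 ^ N := by positivity
    have p3 : (0 : ℝ) < 3 ^ N := by positivity
    have h6 : (6 : ℝ) ^ N = 3 ^ N * 2 ^ N := by rw [← mul_pow]; norm_num
    have e1 : P N = 8 / ε * ((2 : ℝ) ^ ⌊C * N⌋₊ / 6 ^ N) * 2 ^ N := by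
      simp only [hP, hT, h6]
      field_simp
    have e2 : 3 * P (N + 1) =
        48 / ε * ((2 : ℝ) ^ ⌊C * ((N + 1 : ℕ) : ℝ)⌋₊ / 6 ^ (N + 1)) * 2 ^ N := by
      simp only [hP, hT]
      rw [pow_succ 6, pow_succ 3, h6]
      field_simp
      ring
    constructor
    · rw [e1]
      calc _ < 1 * (2 : ℝ) ^ N := by gcongr
        _ = 2 ^ N := one_mul _
    · rw [e2, e1]
      calc K * (8 / ε * ((2 : ℝ) ^ ⌊C * N⌋₊ / 6 ^ N) * 2 ^ N +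
            48 / ε * ((2 : ℝ) ^ ⌊C * ((N + 1 : ℕ) : ℝ)⌋₊ / 6 ^ (N + 1)) * 2 ^ N)
          = K * (8 / ε * ((2 : ℝ) ^ ⌊C * N⌋₊ / 6 ^ N) +
            48 / ε * ((2 : ℝ) ^ ⌊C * ((N + 1 : ℕ) : ℝ)⌋₊ / 6 ^ (N + 1))) * 2 ^ N := by ring
        _ < 1 * (2 : ℝ) ^ N := by gcongr
        _ = 2 ^ N := one_mul _
  have hfreq := good_scales K P hKpos ev1
  have ev2 : ∀ᶠ N : ℕ in atTop, 4 ≤ h * (2 : ℝ) ^ N := by
    have : Tendsto (fun N : ℕ => h * (2 : ℝ) ^ N) atTop atTop :=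
      Tendsto.const_mul_atTop hhpos (tendsto_pow_atTop_atTop_of_one_lt (by norm_num))
    exact this.eventually_ge_atTop 4
  have ev3 : ∀ᶠ N : ℕ in atTop, (2 : ℝ) ^ ⌊C * N⌋₊ / 6 ^ N ≤ h * ε / 32 :=
    hu.eventually_le_const (by positivity)
  have ev4 : ∀ᶠ N : ℕ in atTop, ε / 4 / (2 : ℝ) ^ N ≤ ℓ / 16 := by
    have t : Tendsto (fun N : ℕ => ε / 4 * (1 / 2 : ℝ) ^ N) atTop (𝓝 (ε / 4 * 0)) :=
      (tendsto_pow_atTop_nhds_zero_of_lt_one (by norm_num) (by norm_num)).const_mul _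
    rw [mul_zero] at t
    filter_upwards [t.eventually_le_const (by positivity : (0 : ℝ) < ℓ / 16)] with N hN
    rw [div_pow, one_pow] at hN
    calc ε / 4 / (2 : ℝ) ^ N = ε / 4 * (1 / 2 ^ N) := by ring
      _ ≤ _ := hN
  obtain ⟨N, hNgood, hN2, hN3, hN4, hNn⟩ :=
    (hfreq.and_eventually (ev2.and (ev3.and (ev4.and (eventually_ge_atTop n0))))).exists
  have p2 : (0 : ℝ) < 2 ^ N := by positivity
  have p3 : (0 : ℝ) < 3 ^ N := by positivity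
  set t : ℕ := ⌊C * N⌋₊ with ht
  have pt2 : (0 : ℝ) < 2 ^ t := by positivity
  have pt3 : (0 : ℝ) < 3 ^ t := by positivity
  have htN : N ≤ t := by
    refine Nat.le_floor ?_
    have : (0 : ℝ) ≤ N := Nat.cast_nonneg N
    nlinarith
  set η : ℝ := ε / 4 * (3 ^ N / 2 ^ t) with hη
  have hηpos : 0 < η := by positivity
  have h2η : 2 / η = P N := by
    simp only [hP, hT, hη, ← ht]
    field_simp
    ring
  set ℓ' : ℝ := min (ℓ / 16) (ε / 4 / 3 ^ t) with hℓ'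
  have hℓ'pos : 0 < ℓ' := lt_min (by positivity) (by positivity)
  have hℓ'1 : ℓ' ≤ ℓ / 16 := min_le_left _ _
  have hℓ'2 : ℓ' ≤ ε / 4 / 3 ^ t := min_le_right _ _
  have hcov := cover N h η hhpos hηpos (by rw [h2η]; exact hNgood) hN2 (by
    have h6 : (6 : ℝ) ^ N = 3 ^ N * 2 ^ N := by rw [← mul_pow]; norm_num
    rw [h6] at hN3
    rw [div_le_div_iff₀ (by positivity) (by norm_num)]
    rw [div_le_iff₀ (by positivity)] at hN3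
    have e : η * 2 ^ t = ε / 4 * 3 ^ N := by rw [hη]; field_simp
    have : 4 * 2 * 2 ^ t ≤ η * (h * 2 ^ N) * 2 ^ t := by
      calc 4 * 2 * 2 ^ t ≤ 4 * 2 * (h * ε / 32 * (3 ^ N * 2 ^ N)) := by gcongr
        _ = (ε / 4 * 3 ^ N) * (h * 2 ^ N) := by ring
        _ = η * (h * 2 ^ N) * 2 ^ t := by rw [← e]; ring
    exact le_of_mul_le_mul_right this pt2)
  -- the common part
  have main : ∀ b c : ℤ, |(b : ℝ) / 2 ^ N - c / 3 ^ N| ≤ η / 3 ^ N →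
      ∀ x, (c : ℝ) / 3 ^ N ≤ x → x ≤ c / 3 ^ N + ℓ' → ∀ k : ℕ, N ≤ k → k ≤ t →
        ∃ m : ℤ, |((2 : ℝ) ^ k + 3 ^ k) * x - m| ≤ ε * (2 ^ k / 2 ^ t) := by
    intro b c hbc x hx1 hx2 k hk1 hkt
    refine ⟨2 ^ (k - N) * b + 3 ^ (k - N) * c, ?_⟩
    obtain ⟨i, rfl⟩ : ∃ i, k = N + i := ⟨k - N, by omega⟩
    have hsub : N + i - N = i := by omega
    rw [hsub]
    have e1 : ((2 : ℝ) ^ (N + i) + 3 ^ (N + i)) * x - ((2 ^ i * b + 3 ^ i * c : ℤ) : ℝ) =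
        2 ^ (N + i) * (x - b / 2 ^ N) + 3 ^ (N + i) * (x - c / 3 ^ N) := by
      push_cast
      rw [pow_add, pow_add]
      field_simp
      ring
    rw [e1]
    have v0 : |x - c / 3 ^ N| ≤ ε / 4 / 3 ^ t := by
      rw [abs_of_nonneg (by linarith)]
      linarith
    have hηN : η / 3 ^ N = ε / 4 / 2 ^ t := by rw [hη]; field_simp
    rw [hηN] at hbc
    have v2 : ε / 4 / (3 : ℝ) ^ t ≤ ε / 4 / 2 ^ t := by gcongr; norm_num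
    have u0 : |x - b / 2 ^ N| ≤ ε / 2 / 2 ^ t := by
      have : x - b / 2 ^ N = (x - c / 3 ^ N) - (b / 2 ^ N - c / 3 ^ N) := by ring
      rw [this]
      refine (abs_sub _ _).trans ?_
      have : ε / 2 / (2 : ℝ) ^ t = ε / 4 / 2 ^ t + ε / 4 / 2 ^ t := by ring
      linarith
    refine (abs_add_le _ _).trans ?_
    rw [abs_mul, abs_mul, abs_of_pos (by positivity : (0 : ℝ) < 2 ^ (N + i)),
      abs_of_pos (by positivity : (0 : ℝ) < 3 ^ (N + i))]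
    have w1 : (2 : ℝ) ^ (N + i) * |x - b / 2 ^ N| ≤ ε / 2 * (2 ^ (N + i) / 2 ^ t) := by
      calc (2 : ℝ) ^ (N + i) * |x - b / 2 ^ N| ≤ 2 ^ (N + i) * (ε / 2 / 2 ^ t) := by
            gcongr
        _ = ε / 2 * (2 ^ (N + i) / 2 ^ t) := by ring
    have w2 : (3 : ℝ) ^ (N + i) * |x - c / 3 ^ N| ≤ ε / 4 * (2 ^ (N + i) / 2 ^ t) := by
      calc (3 : ℝ) ^ (N + i) * |x - c / 3 ^ N| ≤ 3 ^ (N + i) * (ε / 4 / 3 ^ t) := by
            gcongr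
        _ = ε / 4 * (3 ^ (N + i) / 3 ^ t) := by ring
        _ ≤ ε / 4 * (2 ^ (N + i) / 2 ^ t) := by
          refine mul_le_mul_of_nonneg_left ?_ (by positivity)
          rw [div_le_div_iff₀ pt3 pt2]
          obtain ⟨s, hs⟩ : ∃ s, t = N + i + s := ⟨t - (N + i), by omega⟩
          rw [hs, pow_add 2 (N + i) s, pow_add 3 (N + i) s]
          have h23 : (2 : ℝ) ^ s ≤ 3 ^ s := by gcongr; norm_num
          calc (3 : ℝ) ^ (N + i) * (2 ^ (N + i) * 2 ^ s)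
              = (3 ^ (N + i) * 2 ^ (N + i)) * 2 ^ s := by ring
            _ ≤ (3 ^ (N + i) * 2 ^ (N + i)) * 3 ^ s := by gcongr
            _ = _ := by ring
    have w3 : 0 ≤ ε / 4 * ((2 : ℝ) ^ (N + i) / 2 ^ t) := by positivity
    have w4 : ε * ((2 : ℝ) ^ (N + i) / 2 ^ t) = ε / 2 * (2 ^ (N + i) / 2 ^ t) +
        ε / 4 * (2 ^ (N + i) / 2 ^ t) + ε / 4 * (2 ^ (N + i) / 2 ^ t) := by ring
    linarith
  have hclose : η / 3 ^ N ≤ ℓ / 16 := by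
    have hηN : η / 3 ^ N = ε / 4 / 2 ^ t := by rw [hη]; field_simp
    rw [hηN]
    calc ε / 4 / (2 : ℝ) ^ t ≤ ε / 4 / 2 ^ N := by gcongr; norm_num
      _ ≤ ℓ / 16 := hN4
  refine ⟨N, hNn, ℓ', hℓ'pos, fun a => ?_⟩
  obtain ⟨b, c, hb1, hb2, hb3⟩ := hcov (a + ℓ / 8)
  obtain ⟨b', c', hb1', hb2', hb3'⟩ := hcov (a + ℓ / 2)
  have k1 := abs_le.1 (hb3.trans hclose)
  have k2 := abs_le.1 (hb3'.trans hclose)
  refine ⟨c / 3 ^ N, c' / 3 ^ N, ?_, ?_, ?_, main b c hb3, main b' c' hb3'⟩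
  · linarith [k1.1, k1.2]
  · linarith [k1.1, k1.2, k2.1, k2.2]
  · linarith [k1.1, k1.2, k2.1, k2.2]

end Pool.Agent.Helper66.Rig
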