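import Pool.Agent.Helper66.Rig.Win2

namespace Pool.Agent.Helper66.Rig

open MeasureTheory Filter Topology

/-- The window lengths used in stage `j`. -/
noncomputable def cC (j : ℕ) : ℝ := 1 + lam - 1 / ((j : ℝ) + 2)

theorem lam_gt : 1 < lam := by
  rw [lam, lt_div_iff₀ log2_pos, one_mul]
  exact Real.log_lt_log (by norm_num) (by norm_num)

theorem cC_bd (j : ℕ) : 1 ≤ cC j ∧ cC j < 1 + lam := by
  have h1 : (0 : ℝ) < 1 / ((j : ℝ) + 2) := by positivity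
  have h2 : 1 / ((j : ℝ) + 2) ≤ 1 := by
    rw [div_le_one (by positivity)]
    have : (0 : ℝ) ≤ j := Nat.cast_nonneg j
    linarith
  have := lam_gt
  rw [cC]
  constructor <;> linarith

theorem sum_two (N t : ℕ) : ∑ k ∈ Finset.Icc N t, (2 : ℝ) ^ k / 2 ^ t ≤ 2 := by
  rw [← Finset.sum_div, div_le_iff₀ (by positivity)]
  have h1 : Finset.Icc N t ⊆ Finset.range (t + 1) := by
    intro k hk
    rw [Finset.mem_Icc] at hk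
    rw [Finset.mem_range]
    omega
  calc ∑ k ∈ Finset.Icc N t, (2 : ℝ) ^ k ≤ ∑ k ∈ Finset.range (t + 1), (2 : ℝ) ^ k :=
        Finset.sum_le_sum_of_subset_of_nonneg h1 fun _ _ _ => by positivity
    _ ≤ 2 * 2 ^ t := by
      rw [geom_sum_eq (by norm_num), pow_succ]
      norm_num
      linarith

theorem exists_windows : ∃ σ : Measure ℂ, ContProb σ ∧
    ∀ C : ℝ, C < Real.log 6 / Real.log 2 → ∀ ε : ℝ, 0 < ε →
      ∃ᶠ N : ℕ in atTop, ∑ k ∈ Finset.Icc N ⌊C * N⌋₊, ‖1 - fc σ (2 ^ k + 3 ^ k)‖ ≤ ε := by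
  have H : ∀ j : ℕ, ∀ ℓ : ℝ, 0 < ℓ → ∃ N : ℕ, j ≤ N ∧ ∃ ℓ' : ℝ, 0 < ℓ' ∧ ∀ a : ℝ, ∃ a0 a1 : ℝ,
      a ≤ a0 ∧ a0 + ℓ' < a1 ∧ a1 + ℓ' ≤ a + ℓ ∧
      (∀ x, a0 ≤ x → x ≤ a0 + ℓ' → ∀ k : ℕ, N ≤ k → k ≤ ⌊cC j * N⌋₊ →
        ∃ m : ℤ, |((2 : ℝ) ^ k + 3 ^ k) * x - m| ≤
          1 / ((j : ℝ) + 1) * (2 ^ k / 2 ^ ⌊cC j * N⌋₊)) ∧
      (∀ x, a1 ≤ x → x ≤ a1 + ℓ' → ∀ k : ℕ, N ≤ k → k ≤ ⌊cC j * N⌋₊ →
        ∃ m : ℤ, |((2 : ℝ) ^ k + 3 ^ k) * x - m| ≤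
          1 / ((j : ℝ) + 1) * (2 ^ k / 2 ^ ⌊cC j * N⌋₊)) := fun j ℓ hℓ =>
    stageC ℓ (1 / ((j : ℝ) + 1)) (cC j) j hℓ (by positivity) (cC_bd j).1 (cC_bd j).2
  choose! Nf hN1 ℓf hℓ1 hst using H
  let ℓ : ℕ → ℝ := fun j => Nat.rec (1 / 2) (fun j l => ℓf j l) j
  have ℓ0 : ℓ 0 = 1 / 2 := rfl
  have ℓS : ∀ j, ℓ (j + 1) = ℓf j (ℓ j) := fun j => rfl
  have ℓpos : ∀ j, 0 < ℓ j := by
    intro j
    induction j with
    | zero => rw [ℓ0]; norm_num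
    | succ j ih => rw [ℓS]; exact hℓ1 j _ ih
  obtain ⟨f, h1, h2, h3⟩ := scheme ℓ
    (fun j x => ∀ k : ℕ, Nf j (ℓ j) ≤ k → k ≤ ⌊cC j * Nf j (ℓ j)⌋₊ →
      ∃ m : ℤ, |((2 : ℝ) ^ k + 3 ^ k) * x - m| ≤
        1 / ((j : ℝ) + 1) * (2 ^ k / 2 ^ ⌊cC j * Nf j (ℓ j)⌋₊))
    (fun j => (ℓpos j).le) (fun j a _ => by rw [ℓS]; exact hst j _ (ℓpos j) a)
  refine ⟨push f, push_cont h1 h2 (fun t => ⟨(h3 t).1, (h3 t).2.1.trans_lt (by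
    rw [ℓ0]; norm_num)⟩), fun C hC ε hε => ?_⟩
  rw [← lam_one] at hC
  have t1 : Tendsto (fun j : ℕ => 4 * Real.pi * (1 / ((j : ℝ) + 1))) atTop (𝓝 (4 * Real.pi * 0)) :=
    tendsto_one_div_add_atTop_nhds_zero_nat.const_mul _
  rw [mul_zero] at t1
  have t2 : Tendsto (fun j : ℕ => cC j) atTop (𝓝 (1 + lam - 0)) := by
    have : Tendsto (fun j : ℕ => 1 / ((j : ℝ) + 2)) atTop (𝓝 0) := by
      have h := (tendsto_add_atTop_iff_nat 1).2 (tendsto_one_div_add_atTop_nhds_zero_nat (𝕜 := ℝ))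
      refine h.congr fun j => ?_
      push_cast
      ring_nf
    exact tendsto_const_nhds.sub this
  rw [sub_zero] at t2
  rw [frequently_atTop]
  intro n0
  obtain ⟨j, hj1, hj2, hj3⟩ := ((t1.eventually_lt_const hε).and
    ((t2.eventually_const_lt hC).and (eventually_ge_atTop n0))).exists
  refine ⟨Nf j (ℓ j), hj3.trans (hN1 j _ (ℓpos j)), ?_⟩
  set N := Nf j (ℓ j) with hN
  have hsub : Finset.Icc N ⌊C * N⌋₊ ⊆ Finset.Icc N ⌊cC j * N⌋₊ := by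
    refine Finset.Icc_subset_Icc le_rfl (Nat.floor_le_floor ?_)
    gcongr
  calc ∑ k ∈ Finset.Icc N ⌊C * N⌋₊, ‖1 - fc (push f) (2 ^ k + 3 ^ k)‖
      ≤ ∑ k ∈ Finset.Icc N ⌊cC j * N⌋₊, ‖1 - fc (push f) (2 ^ k + 3 ^ k)‖ :=
        Finset.sum_le_sum_of_subset_of_nonneg hsub fun _ _ _ => norm_nonneg _
    _ ≤ ∑ k ∈ Finset.Icc N ⌊cC j * N⌋₊,
        2 * Real.pi * (1 / ((j : ℝ) + 1)) * ((2 : ℝ) ^ k / 2 ^ ⌊cC j * N⌋₊) := by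
        refine Finset.sum_le_sum fun k hk => ?_
        rw [Finset.mem_Icc] at hk
        rw [mul_assoc]
        refine push_close h1 _ fun t => ?_
        obtain ⟨m, hm⟩ := (h3 t).2.2 j k hk.1 hk.2
        refine ⟨m, ?_⟩
        push_cast
        exact hm
    _ = 2 * Real.pi * (1 / ((j : ℝ) + 1)) *
        ∑ k ∈ Finset.Icc N ⌊cC j * N⌋₊, (2 : ℝ) ^ k / 2 ^ ⌊cC j * N⌋₊ := by
        rw [Finset.mul_sum]
    _ ≤ 2 * Real.pi * (1 / ((j : ℝ) + 1)) * 2 := by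
        refine mul_le_mul_of_nonneg_left (sum_two _ _) ?_
        have := Real.pi_pos
        positivity
    _ ≤ ε := by
        refine le_trans (le_of_eq ?_) hj1.le
        ring

end Pool.Agent.Helper66.Rig
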